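import Pool.Agent.VPE.Extract

/-!
# [VPP-EXTRACTP] a formula for the point in characteristic r

Mixed Taylor coefficients instead of derivatives. The substitution `shiftP` sends the variable `o₀` to itself plus `s` and
the variable `o₁` to itself plus `c * s`, with values in `A[c][s]`. A linear form `ℓ` which vanishes at the point becomes
`s * (1 - g c)`, and the coefficient of `s ^ μ` in `ℓ ^ μ * η` is `(1 - g c) ^ μ * η(q)`.
-/

set_option autoImplicit false

open MvPolynomial

namespace Pool.Agent.VPP

open Pool.Agent.VPE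

section Shift

open scoped Classical in
/-- the substitution `o₀ ↦ v o₀ + s`, `o₁ ↦ v o₁ + c s` -/
noncomputable def shiftP {R A ι : Type} [CommRing R] [CommRing A] (φ : R →+* A) (v : ι → A) (o₀ o₁ : ι) :
    MvPolynomial ι R →+* Polynomial (Polynomial A) :=
  eval₂Hom ((Polynomial.C.comp Polynomial.C).comp φ) (fun i => Polynomial.C (Polynomial.C (v i)) +
    (if i = o₀ then Polynomial.X else 0) + (if i = o₁ then Polynomial.C Polynomial.X * Polynomial.X else 0))

theorem shiftP_map {R A B ι : Type} [CommRing R] [CommRing A] [CommRing B] (φ : R →+* A) (ψ : A →+* B) (v : ι → A)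
    (o₀ o₁ : ι) (F : MvPolynomial ι R) :
    Polynomial.map (Polynomial.mapRingHom ψ) (shiftP φ v o₀ o₁ F) = shiftP (ψ.comp φ) (fun i => ψ (v i)) o₀ o₁ F := by
  have h : (Polynomial.mapRingHom (Polynomial.mapRingHom ψ)).comp (shiftP φ v o₀ o₁) =
      shiftP (ψ.comp φ) (fun i => ψ (v i)) o₀ o₁ := by
    apply MvPolynomial.ringHom_ext
    · intro a
      simp [shiftP]
    · intro i
      simp only [shiftP, RingHom.comp_apply, coe_eval₂Hom, eval₂_X]
      split_ifs <;> simp
  exact congrArg (fun f => f F) h

theorem shiftP_ins {R T ι κ : Type} [CommRing R] [CommRing T] (φ : R →+* T) (v : ι → R) (p : κ → R) (o₀ o₁ : ι)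
    (F : MvPolynomial (ι ⊕ κ) R) :
    shiftP φ (fun i => φ (Sum.elim v p i)) (Sum.inl o₀) (Sum.inl o₁) F =
      shiftP (RingHom.id T) (fun o => φ (v o)) o₀ o₁ (extractIns φ p F) := by
  have h : shiftP φ (fun i => φ (Sum.elim v p i)) (Sum.inl o₀) (Sum.inl o₁) =
      (shiftP (RingHom.id T) (fun o => φ (v o)) o₀ o₁).comp (extractIns φ p) := by
    apply MvPolynomial.ringHom_ext
    · intro a
      simp [shiftP, extractIns]
    · intro i
      rcases i with i | i
      · simp only [shiftP, extractIns, RingHom.comp_apply, coe_eval₂Hom, eval₂_X, Sum.elim_inl]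
        congr 1
        · congr 1
          by_cases h0 : i = o₀
          · rw [if_pos h0, if_pos (congrArg Sum.inl h0)]
          · rw [if_neg h0, if_neg (fun h => h0 (Sum.inl.inj h))]
        · by_cases h0 : i = o₁
          · rw [if_pos h0, if_pos (congrArg Sum.inl h0)]
          · rw [if_neg h0, if_neg (fun h => h0 (Sum.inl.inj h))]
      · simp [shiftP, extractIns]
  exact congrArg (fun f => f F) h

theorem shiftP_coeff_zero {T ι : Type} [CommRing T] (q : ι → T) (o₀ o₁ : ι) (F : MvPolynomial ι T) :
    (shiftP (RingHom.id T) q o₀ o₁ F).coeff 0 = Polynomial.C (eval q F) := by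
  have h : (Polynomial.constantCoeff (R := Polynomial T)).comp (shiftP (RingHom.id T) q o₀ o₁) =
      Polynomial.C.comp (eval q) := by
    apply MvPolynomial.ringHom_ext
    · intro a
      simp [shiftP]
    · intro i
      simp only [shiftP, RingHom.comp_apply, coe_eval₂Hom, eval₂_X, eval_X]
      split_ifs <;> simp
  exact congrArg (fun f => f F) h

/-- all coefficients have total degree at most `t` -/
def DL {R ι : Type} [CommRing R] (t : ℕ) (P : Polynomial (Polynomial (MvPolynomial ι R))) : Prop :=
  ∀ m n, ((P.coeff m).coeff n).totalDegree ≤ t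

theorem DL.mono {R ι : Type} [CommRing R] {t t' : ℕ} {P : Polynomial (Polynomial (MvPolynomial ι R))} (h : DL t P)
    (ht : t ≤ t') : DL t' P := fun m n => (h m n).trans ht

theorem DL.mul {R ι : Type} [CommRing R] {t t' : ℕ} {P P' : Polynomial (Polynomial (MvPolynomial ι R))} (h : DL t P)
    (h' : DL t' P') : DL (t + t') (P * P') := by
  intro m n
  rw [Polynomial.coeff_mul, Polynomial.finsetSum_coeff]
  refine totalDegree_finsetSum_le fun x _ => ?_
  rw [Polynomial.coeff_mul]
  refine totalDegree_finsetSum_le fun y _ => ?_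
  exact (totalDegree_mul _ _).trans (Nat.add_le_add (h _ _) (h' _ _))

theorem DL.add {R ι : Type} [CommRing R] {t : ℕ} {P P' : Polynomial (Polynomial (MvPolynomial ι R))} (h : DL t P)
    (h' : DL t P') : DL t (P + P') := by
  intro m n
  rw [Polynomial.coeff_add, Polynomial.coeff_add]
  exact (totalDegree_add _ _).trans (max_le (h _ _) (h' _ _))

theorem DL.zero {R ι : Type} [CommRing R] (t : ℕ) : DL t (0 : Polynomial (Polynomial (MvPolynomial ι R))) := by
  intro m n
  simp

theorem DL.sum {R ι α : Type} [CommRing R] {t : ℕ} (s : Finset α)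
    (P : α → Polynomial (Polynomial (MvPolynomial ι R))) (h : ∀ i ∈ s, DL t (P i)) : DL t (∑ i ∈ s, P i) := by
  classical
  induction s using Finset.induction_on with
  | empty => simpa using DL.zero t
  | insert a s ha ih =>
    rw [Finset.sum_insert ha]
    exact (h a (Finset.mem_insert_self _ _)).add (ih fun i hi => h i (Finset.mem_insert_of_mem hi))

theorem DL.CC {R ι : Type} [CommRing R] {t : ℕ} {a : MvPolynomial ι R} (h : a.totalDegree ≤ t) :
    DL t (Polynomial.C (Polynomial.C a)) := by
  intro m n
  rw [Polynomial.coeff_C]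
  split_ifs
  · rw [Polynomial.coeff_C]
    split_ifs
    · exact h
    · simp
  · simp

theorem DL.X {R ι : Type} [CommRing R] (t : ℕ) :
    DL t (Polynomial.X : Polynomial (Polynomial (MvPolynomial ι R))) := by
  intro m n
  rw [Polynomial.coeff_X]
  split_ifs
  · rw [Polynomial.coeff_one]
    split_ifs <;> simp
  · simp

theorem DL.CX {R ι : Type} [CommRing R] (t : ℕ) :
    DL t (Polynomial.C Polynomial.X : Polynomial (Polynomial (MvPolynomial ι R))) := by
  intro m n
  rw [Polynomial.coeff_C]
  split_ifs
  · rw [Polynomial.coeff_X]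
    split_ifs <;> simp
  · simp

theorem DL.pow {R ι : Type} [CommRing R] {t : ℕ} {P : Polynomial (Polynomial (MvPolynomial ι R))} (h : DL t P)
    (n : ℕ) : DL (n * t) (P ^ n) := by
  induction n with
  | zero =>
    rw [pow_zero]
    have h1 : (1 : Polynomial (Polynomial (MvPolynomial ι R))) = Polynomial.C (Polynomial.C 1) := by simp
    rw [h1]
    exact DL.CC (by simp)
  | succ n ih =>
    rw [pow_succ]
    exact (ih.mul h).mono (by rw [Nat.succ_mul])

theorem DL.prod {R ι α : Type} [CommRing R] (s : Finset α) (t : α → ℕ)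
    (P : α → Polynomial (Polynomial (MvPolynomial ι R))) (h : ∀ i ∈ s, DL (t i) (P i)) :
    DL (∑ i ∈ s, t i) (∏ i ∈ s, P i) := by
  classical
  induction s using Finset.induction_on with
  | empty =>
    rw [Finset.prod_empty, Finset.sum_empty]
    have h1 : (1 : Polynomial (Polynomial (MvPolynomial ι R))) = Polynomial.C (Polynomial.C 1) := by simp
    rw [h1]
    exact DL.CC (by simp)
  | insert a s ha ih =>
    rw [Finset.sum_insert ha, Finset.prod_insert ha]
    exact (h a (Finset.mem_insert_self _ _)).mul (ih fun i hi => h i (Finset.mem_insert_of_mem hi))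

theorem shiftP_deg {R ι : Type} [CommRing R] (o₀ o₁ : ι) (F : MvPolynomial ι R) :
    DL F.totalDegree (shiftP (C : R →+* MvPolynomial ι R) X o₀ o₁ F) := by
  conv => arg 2; rw [F.as_sum]
  rw [map_sum]
  refine DL.sum _ _ fun d hd => ?_
  have h1 : DL (∑ i ∈ d.support, d i) (shiftP (C : R →+* MvPolynomial ι R) X o₀ o₁ (monomial d (coeff d F))) := by
    rw [monomial_eq, map_mul, Finsupp.prod, map_prod]
    have h2 : DL 0 (shiftP (C : R →+* MvPolynomial ι R) X o₀ o₁ (C (coeff d F))) := by
      have : shiftP (C : R →+* MvPolynomial ι R) X o₀ o₁ (C (coeff d F)) =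
          Polynomial.C (Polynomial.C (C (coeff d F))) := by simp [shiftP]
      rw [this]
      exact DL.CC (by simp)
    have h3 : DL (∑ i ∈ d.support, d i)
        (∏ i ∈ d.support, shiftP (C : R →+* MvPolynomial ι R) X o₀ o₁ (X i ^ d i)) := by
      refine DL.prod _ _ _ fun i _ => ?_
      rw [map_pow]
      have h4 : DL 1 (shiftP (C : R →+* MvPolynomial ι R) X o₀ o₁ (X i)) := by
        simp only [shiftP, coe_eval₂Hom, eval₂_X]
        refine DL.add (DL.add (DL.CC ?_) ?_) ?_
        · rcases subsingleton_or_nontrivial R with h | h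
          · rw [Subsingleton.elim (X i : MvPolynomial ι R) 0]; simp
          · rw [totalDegree_X]
        · split_ifs
          · exact DL.X 1
          · exact DL.zero 1
        · split_ifs
          · exact ((DL.CX 0).mul (DL.X 1)).mono (by omega)
          · exact DL.zero 1
      exact (h4.pow (d i)).mono (by omega)
    exact (h2.mul h3).mono (by omega)
  refine h1.mono ?_
  exact le_totalDegree hd

end Shift

theorem choose_val {r : ℕ} [hr : Fact r.Prime] {K : Type} [Field K] [CharP K r] {μ : ℕ} (hμ : 1 ≤ μ) :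
    ((μ.choose (r ^ padicValNat r μ) : ℕ) : K) ≠ 0 := by
  obtain ⟨m, hm⟩ : r ^ padicValNat r μ ∣ μ := pow_padicValNat_dvd
  obtain ⟨a, ha⟩ : ∃ a, a = padicValNat r μ := ⟨_, rfl⟩
  rw [← ha] at hm ⊢
  have hrm : ¬ r ∣ m := by
    intro h
    have h1 : r ^ (a + 1) ∣ μ := by
      rw [hm, pow_succ]
      exact Nat.mul_dvd_mul_left _ h
    rw [ha] at h1
    exact pow_succ_padicValNat_not_dvd (by omega) h1
  have h1 : ((1 + Polynomial.X : Polynomial K) ^ μ).coeff (r ^ a) = ((μ.choose (r ^ a) : ℕ) : K) :=
    Polynomial.coeff_one_add_X_pow K μ (r ^ a)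
  have h2 : (1 + Polynomial.X : Polynomial K) ^ μ = Polynomial.expand K (r ^ a) ((1 + Polynomial.X) ^ m) := by
    rw [map_pow, map_add, map_one, Polynomial.expand_X, hm, pow_mul, add_pow_char_pow, one_pow]
  have h3 : ((1 + Polynomial.X : Polynomial K) ^ μ).coeff (r ^ a) = (m : K) := by
    rw [h2]
    have h4 := Polynomial.coeff_expand_mul (R := K) (pow_pos hr.out.pos a) ((1 + Polynomial.X) ^ m) 1
    rw [one_mul] at h4
    rw [h4, Polynomial.coeff_one_add_X_pow, Nat.choose_one_right]
  rw [← h1, h3]
  intro h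
  exact hrm ((CharP.cast_eq_zero_iff K r m).1 h)

/-- choice of a parameter which separates finitely many points -/
theorem extract_sep_p {k : Type} [Field k] [Infinite k] {J : Type} [Fintype J] (e : J → ℕ)
    (he : Function.Injective e) {ι : Type} [Fintype ι] (Y : ι → J → AlgebraicClosure k) (σ0 : ι) :
    ∃ a : k, ∀ σ, Y σ ≠ Y σ0 →
      ∑ j, algebraMap k (AlgebraicClosure k) (a ^ e j) * (Y σ0 j - Y σ j) ≠ 0 := by
  classical
  let U : ι → Polynomial (AlgebraicClosure k) := fun σ => ∑ j, Polynomial.monomial (e j) (Y σ0 j - Y σ j)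
  have hU : ∀ σ, Y σ ≠ Y σ0 → U σ ≠ 0 := by
    intro σ hσ h0
    apply hσ
    funext j
    have h1 := congrArg (fun P => Polynomial.coeff P (e j)) h0
    simp only [U, Polynomial.finsetSum_coeff, Polynomial.coeff_monomial, Polynomial.coeff_zero] at h1
    rw [Finset.sum_eq_single j] at h1
    · rw [if_pos rfl] at h1
      exact (sub_eq_zero.1 h1).symm
    · intro b _ hb
      rw [if_neg (fun h => hb (he h))]
    · intro h
      exact absurd (Finset.mem_univ j) h
  have hprod : (∏ σ ∈ Finset.univ.filter (fun σ => Y σ ≠ Y σ0), U σ) ≠ 0 := by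
    rw [Finset.prod_ne_zero_iff]
    intro σ hσ
    exact hU σ (Finset.mem_filter.1 hσ).2
  by_contra hcon
  push Not at hcon
  apply hprod
  apply Polynomial.eq_zero_of_infinite_isRoot
  refine (Set.infinite_range_of_injective (algebraMap k (AlgebraicClosure k)).injective).mono ?_
  rintro _ ⟨a, rfl⟩
  obtain ⟨σ, hσ, h0⟩ := hcon a
  change Polynomial.eval _ _ = 0
  rw [Polynomial.eval_prod]
  refine Finset.prod_eq_zero (i := σ) (Finset.mem_filter.2 ⟨Finset.mem_univ _, hσ⟩) ?_
  rw [← h0]
  simp only [U, Polynomial.eval_finsetSum, Polynomial.eval_monomial, map_pow]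
  exact Finset.sum_congr rfl fun j _ => mul_comm _ _

theorem extract_p {r : ℕ} [Fact r.Prime] {k : Type} [Field k] [CharP k r] [Infinite k] {J : Type} [Fintype J]
    {D : ℕ} (e : J → ℕ) (he : Function.Injective e) (G : MvPolynomial (Option J ⊕ Fin D) k) :
    ∃ Q : ℕ → J → MvPolynomial (Option J ⊕ Fin D) k, (∀ μ j, (Q μ j).totalDegree ≤ G.totalDegree) ∧
      ∀ (g : J → k) (p : Fin D → k) (ι : Type) (_ : Fintype ι) (Y : ι → J → AlgebraicClosure k) (σ0 : ι),
        (∀ j, Y σ0 j = algebraMap k (AlgebraicClosure k) (g j)) →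
        (∀ (T : k) (lam : J → k), algebraMap k (AlgebraicClosure k) (eval (Sum.elim (fun o => o.elim T lam) p) G) =
          ∏ σ, (algebraMap k (AlgebraicClosure k) T - ∑ j, algebraMap k (AlgebraicClosure k) (lam j) * Y σ j)) →
        ∃ (μ : ℕ) (a x u : k), 1 ≤ μ ∧ μ ≤ Fintype.card ι ∧ ∀ j, g j ^ r ^ padicValNat r μ =
          u * eval (Sum.elim (fun o => o.elim x fun i => a ^ e i) p) (Q μ j) := by
  classical
  refine ⟨fun μ j => ((shiftP (C : k →+* MvPolynomial (Option J ⊕ Fin D) k) X (Sum.inl none) (Sum.inl (some j))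
    G).coeff μ).coeff (r ^ padicValNat r μ), fun μ j => shiftP_deg _ _ G μ _, ?_⟩
  intro f p ι _ Y σ0 h0 hG
  obtain ⟨a, ha⟩ := extract_sep_p e he Y σ0
  set φ : k →+* AlgebraicClosure k := algebraMap k (AlgebraicClosure k) with hφ
  have hinj : Function.Injective φ := φ.injective
  have : CharP (AlgebraicClosure k) r := charP_of_injective_algebraMap hinj r
  set x : k := ∑ j, a ^ e j * f j with hx
  set S : Finset ι := Finset.univ.filter (fun σ => Y σ = Y σ0) with hS
  set μ : ℕ := S.card with hμ
  have hμ1 : 1 ≤ μ := Finset.card_pos.2 ⟨σ0, Finset.mem_filter.2 ⟨Finset.mem_univ _, rfl⟩⟩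
  have hμ2 : μ ≤ Fintype.card ι := Finset.card_le_univ _
  let v : Option J → k := fun o => o.elim x fun i => a ^ e i
  let q : Option J → AlgebraicClosure k := fun o => φ (v o)
  let fac : ι → MvPolynomial (Option J) (AlgebraicClosure k) := fun σ => X none - ∑ j, C (Y σ j) * X (some j)
  let ℓ : MvPolynomial (Option J) (AlgebraicClosure k) := X none - ∑ j, C (φ (f j)) * X (some j)
  let η : MvPolynomial (Option J) (AlgebraicClosure k) := ∏ σ ∈ Finset.univ.filter (fun σ => ¬ Y σ = Y σ0), fac σ
  have hfac : ∀ σ ∈ S, fac σ = ℓ := by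
    intro σ hσ
    have h1 : Y σ = Y σ0 := (Finset.mem_filter.1 hσ).2
    simp only [fac, ℓ, h1, h0]
  have hH : extractIns φ p G = ℓ ^ μ * η := by
    have h1 : extractIns φ p G = ∏ σ, fac σ := by
      refine MvPolynomial.funext_set (fun _ => Set.range φ)
        (fun _ => Set.infinite_range_of_injective hinj) ?_
      intro y hy
      have hy' : ∀ o, ∃ c, φ c = y o := fun o => hy o (Set.mem_univ _)
      choose c hc using hy'
      have hyc : y = fun o => φ (c o) := funext fun o => (hc o).symm
      rw [hyc, extractIns_eval]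
      have h2 : (fun o : Option J => o.elim (c none) fun j => c (some j)) = c := by
        funext o
        cases o <;> rfl
      have h3 := hG (c none) (fun j => c (some j))
      rw [h2] at h3
      rw [h3, map_prod]
      refine Finset.prod_congr rfl fun σ _ => ?_
      simp only [fac, map_sub, map_sum, map_mul, eval_X, eval_C]
      congr 1
      exact Finset.sum_congr rfl fun j _ => mul_comm _ _
    rw [h1, ← Finset.prod_filter_mul_prod_filter_not Finset.univ (fun σ => Y σ = Y σ0) fac]
    congr 1
    rw [Finset.prod_congr rfl hfac, Finset.prod_const]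
  have hη : eval q η ≠ 0 := by
    simp only [η, map_prod]
    rw [Finset.prod_ne_zero_iff]
    intro σ hσ
    have h1 : ¬ Y σ = Y σ0 := (Finset.mem_filter.1 hσ).2
    have h2 := ha σ h1
    have h3 : eval q (fac σ) = ∑ j, φ (a ^ e j) * (Y σ0 j - Y σ j) := by
      simp only [fac, q, v, map_sub, map_sum, map_mul, eval_X, eval_C, Option.elim]
      rw [hx, map_sum, ← Finset.sum_sub_distrib]
      refine Finset.sum_congr rfl fun j _ => ?_
      rw [map_mul, h0]
      ring
    rw [h3]
    exact h2
  -- the substitution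
  have hℓ : ∀ j, shiftP (RingHom.id _) q none (some j) ℓ =
      Polynomial.X * Polynomial.C (1 + Polynomial.C (- φ (f j)) * Polynomial.X) := by
    intro j
    simp only [ℓ, map_sub, map_sum, map_mul]
    have h1 : ∀ i, shiftP (RingHom.id _) q none (some j) (C (φ (f i))) = Polynomial.C (Polynomial.C (φ (f i))) := by
      intro i
      simp [shiftP]
    have h2 : shiftP (RingHom.id _) q none (some j) (X none) =
        Polynomial.C (Polynomial.C (q none)) + Polynomial.X := by
      simp [shiftP]
    have h3 : ∀ i, shiftP (RingHom.id _) q none (some j) (X (some i)) =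
        Polynomial.C (Polynomial.C (q (some i))) + (if i = j then Polynomial.C Polynomial.X * Polynomial.X else 0) := by
      intro i
      by_cases hij : i = j <;> simp [shiftP, hij]
    rw [h2]
    simp only [h1, h3, mul_add, Finset.sum_add_distrib]
    have h4 : ∑ i, Polynomial.C (Polynomial.C (φ (f i))) * Polynomial.C (Polynomial.C (q (some i))) =
        Polynomial.C (Polynomial.C (q none)) := by
      simp only [← Polynomial.C_mul, ← map_sum]
      congr 2
      simp only [q, v, Option.elim]
      rw [hx, map_sum]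
      exact Finset.sum_congr rfl fun i _ => by rw [map_mul, mul_comm]
    have h5 : ∑ i, Polynomial.C (Polynomial.C (φ (f i))) *
        (if i = j then Polynomial.C Polynomial.X * Polynomial.X else 0) =
        Polynomial.C (Polynomial.C (φ (f j))) *
          (Polynomial.C Polynomial.X * Polynomial.X : Polynomial (Polynomial (AlgebraicClosure k))) := by
      rw [Finset.sum_eq_single j]
      · rw [if_pos rfl]
      · intro b _ hb
        rw [if_neg hb, mul_zero]
      · intro h
        exact absurd (Finset.mem_univ j) h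
    rw [h4, h5]
    simp only [map_add, map_one, map_mul, map_neg]
    ring
  have hval : ∀ j n, φ (eval (Sum.elim v p) (((shiftP (C : k →+* MvPolynomial (Option J ⊕ Fin D) k) X (Sum.inl none)
      (Sum.inl (some j)) G).coeff μ).coeff n)) = (μ.choose n : ℕ) * (- φ (f j)) ^ n * eval q η := by
    intro j n
    have h1 := shiftP_map (C : k →+* MvPolynomial (Option J ⊕ Fin D) k)
      (φ.comp (eval (Sum.elim v p))) X (Sum.inl none) (Sum.inl (some j)) G
    have h2 : (φ.comp (eval (Sum.elim v p))).comp C = φ := by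
      ext c
      simp
    have h3 : (fun i => (φ.comp (eval (Sum.elim v p))) (X i : MvPolynomial (Option J ⊕ Fin D) k)) =
        fun i => φ (Sum.elim v p i) := by
      funext i
      simp
    rw [h2, h3, shiftP_ins, hH, map_mul, map_pow] at h1
    have h4 := congrArg (fun P => (Polynomial.coeff P μ).coeff n) h1
    simp only [Polynomial.coeff_map, Polynomial.coe_mapRingHom, RingHom.comp_apply] at h4
    rw [h4]
    have h5 := hℓ j
    change shiftP (RingHom.id _) (fun o => φ (v o)) none (some j) ℓ = _ at h5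
    rw [h5, mul_pow, mul_assoc, Polynomial.coeff_X_pow_mul', if_pos le_rfl, Nat.sub_self, ← Polynomial.C_pow,
      Polynomial.coeff_C_mul, shiftP_coeff_zero, Polynomial.coeff_mul_C]
    congr 1
    have h6 : (1 + Polynomial.C (- φ (f j)) * Polynomial.X) ^ μ =
        ((1 + Polynomial.X : Polynomial (AlgebraicClosure k)) ^ μ).comp (Polynomial.C (- φ (f j)) * Polynomial.X) := by
      simp
    rw [h6, Polynomial.comp_C_mul_X_coeff, Polynomial.coeff_one_add_X_pow]
  rcases isEmpty_or_nonempty J with hJ | ⟨⟨j0⟩⟩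
  · exact ⟨μ, a, x, 0, hμ1, hμ2, fun j => (hJ.false j).elim⟩
  set c0 : k := eval (Sum.elim v p) (((shiftP (C : k →+* MvPolynomial (Option J ⊕ Fin D) k) X (Sum.inl none)
      (Sum.inl (some j0)) G).coeff μ).coeff 0) with hc0
  have hφc : φ c0 = eval q η := by
    rw [hc0, hval]
    simp
  obtain ⟨n, hn⟩ : ∃ n, n = r ^ padicValNat r μ := ⟨_, rfl⟩
  have hch : ((μ.choose n : ℕ) : AlgebraicClosure k) ≠ 0 := by
    rw [hn]
    exact choose_val hμ1
  refine ⟨μ, a, x, (((μ.choose n : ℕ) : k) * (-1) ^ n * c0)⁻¹, hμ1, hμ2, fun j => ?_⟩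
  change f j ^ r ^ padicValNat r μ = _ * eval (Sum.elim v p) (((shiftP (C : k →+* MvPolynomial (Option J ⊕ Fin D) k) X
    (Sum.inl none) (Sum.inl (some j)) G).coeff μ).coeff (r ^ padicValNat r μ))
  rw [← hn]
  apply hinj
  rw [map_mul, hval, map_inv₀, map_mul, map_mul, hφc, map_pow, map_pow, map_neg, map_one, map_natCast, neg_pow (φ (f j))]
  have h7 : ((-1 : AlgebraicClosure k)) ^ n ≠ 0 := pow_ne_zero _ (by simp)
  field_simp

end Pool.Agent.VPP
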