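import Pool.Agent.VPP.CayleyP
import Pool.Agent.VPP.ExtractP
import Pool.Agent.VPE.Cover

/-!
# [VPP-COVERP] covering of the closure of the image of a polynomial map over an infinite perfect field

As `Pool.Agent.VPE.cover`: `cayley_p` applied to the family `z'` on `Option J` with `z' none = 1`, `z' (some j) = z j`, and
`extract_p` with an injection `Option J → ℕ` with values `≤ card J`, give `f j ^ r ^ b = eval c' (Ψ₀ μ j)` with
`b = n + padicValNat r μ`. Over a perfect field take the `r ^ b`-th roots of the coefficients of `Ψ₀ μ j` and of the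
coordinates of `c'`.
-/

set_option autoImplicit false

open MvPolynomial

namespace Pool.Agent.VPP

open Pool.Agent.VPE

private theorem covp_aeval {R ι κ : Type} [CommRing R] (h : ι → MvPolynomial κ R) (N : ℕ)
    (hN : ∀ v, (h v).totalDegree ≤ N) (F : MvPolynomial ι R) :
    (aeval h F).totalDegree ≤ F.totalDegree * N := by
  classical
  conv_lhs => rw [F.as_sum]
  rw [map_sum]
  refine totalDegree_finsetSum_le fun m hm => ?_
  rw [aeval_monomial, algebraMap_eq]
  refine (totalDegree_mul _ _).trans ?_
  rw [totalDegree_C, zero_add, Finsupp.prod]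
  refine (totalDegree_finsetProd _ _).trans ?_
  calc ∑ i ∈ m.support, (h i ^ m i).totalDegree ≤ ∑ i ∈ m.support, m i * N := by
        refine Finset.sum_le_sum fun i _ => ?_
        exact (totalDegree_pow _ _).trans (Nat.mul_le_mul_left _ (hN i))
    _ = (m.sum fun _ e => e) * N := by rw [← Finset.sum_mul]; rfl
    _ ≤ F.totalDegree * N := Nat.mul_le_mul_right _ (le_totalDegree hm)

private theorem covp_coeff {k : Type} [Field k] {S : Type} {J : Type} (w : J → MvPolynomial S k) (d : ℕ)
    (g : MvPolynomial J k) :
    (aeval (fun o => (Polynomial.X * Polynomial.C (w o) : Polynomial (MvPolynomial S k))) g).coeff d =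
      aeval w (homogeneousComponent d g) := by
  classical
  induction g using MvPolynomial.induction_on' with
  | monomial m a =>
    have h1 : (m.prod fun o e => ((Polynomial.X * Polynomial.C (w o) : Polynomial (MvPolynomial S k))) ^ e) =
        Polynomial.X ^ m.degree * Polynomial.C (m.prod fun o e => w o ^ e) := by
      unfold Finsupp.prod
      simp only [mul_pow, Finset.prod_mul_distrib, Finset.prod_pow_eq_pow_sum, map_prod, map_pow]
      rfl
    rw [aeval_monomial, h1, homogeneousComponent_of_mem (isHomogeneous_monomial a rfl)]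
    have h2 : algebraMap k (Polynomial (MvPolynomial S k)) a = Polynomial.C (C a) := rfl
    rw [h2, mul_comm (Polynomial.X ^ m.degree), ← mul_assoc, ← Polynomial.C_mul,
      Polynomial.coeff_C_mul_X_pow]
    split_ifs with h3
    · rw [aeval_monomial]; rfl
    · rw [map_zero]
  | add p q hp hq => rw [map_add, Polynomial.coeff_add, hp, hq, map_add, map_add]

/-- `k[c][t]` as polynomials in one variable -/
private noncomputable def covp_psi (k : Type) [Field k] (S : Type) :
    MvPolynomial (Option S) k →ₐ[k] Polynomial (MvPolynomial S k) :=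
  aeval fun o => o.elim Polynomial.X fun s => Polynomial.C (X s)

private theorem covp_psi_tz {k : Type} [Field k] {S : Type} (w : MvPolynomial S k) :
    covp_psi k S (tz w) = Polynomial.X * Polynomial.C w := by
  unfold tz covp_psi
  rw [map_mul, aeval_X, aeval_rename]
  congr 1
  induction w using MvPolynomial.induction_on with
  | C a => rw [algHom_C]; rfl
  | add p q hp hq => rw [map_add, hp, hq, map_add]
  | mul_X p n hp => rw [map_mul, hp, aeval_X, map_mul]; rfl

theorem cone_rel_p {k : Type} [Field k] {S : Type} {J : Type} [Fintype J] (z : J → MvPolynomial S k) (f : J → k)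
    (hf : ∀ g : MvPolynomial J k, aeval z g = 0 → eval f g = 0) (g : MvPolynomial (Option J) k)
    (hg : aeval (fun o : Option J => tz (o.elim (1 : MvPolynomial S k) z)) g = 0) :
    eval (fun o : Option J => o.elim (1 : k) f) g = 0 := by
  have h1 : ∀ d, aeval (fun o : Option J => o.elim (1 : MvPolynomial S k) z) (homogeneousComponent d g) = 0 := by
    intro d
    rw [← covp_coeff]
    have h2 := congrArg (covp_psi k S) hg
    rw [map_zero, comp_aeval_apply] at h2
    simp only [covp_psi_tz] at h2
    rw [h2, Polynomial.coeff_zero]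
  have h3 : ∀ d, eval (fun o : Option J => o.elim (1 : k) f) (homogeneousComponent d g) = 0 := by
    intro d
    have h4 := hf (aeval (fun o : Option J => o.elim (1 : MvPolynomial J k) X) (homogeneousComponent d g))
      (by
        rw [comp_aeval_apply]
        rw [← h1 d]
        congr 2
        funext o
        cases o with
        | none => simp
        | some j => simp)
    rw [← h4, ← MvPolynomial.coe_aeval_eq_eval, ← MvPolynomial.coe_aeval_eq_eval]
    show aeval _ _ = aeval _ (aeval _ _)
    rw [comp_aeval_apply]
    congr 2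
    funext o
    cases o with
    | none => simp
    | some j => simp
  rw [← sum_homogeneousComponent g, map_sum]
  exact Finset.sum_eq_zero fun d _ => h3 d

/-- roots of the coefficients and of the coordinates -/
private theorem eval_root {r : ℕ} [Fact r.Prime] {k : Type} [Field k] [CharP k r] [PerfectRing k r] {I : Type}
    (b : ℕ) (c : I → k) (F : MvPolynomial I k) (y : k) (h : y ^ r ^ b = eval c F) :
    y = eval (fun i => (iterateFrobeniusEquiv k r b).symm (c i))
      (map ((iterateFrobeniusEquiv k r b).symm : k →+* k) F) := by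
  have h1 : y = ((iterateFrobeniusEquiv k r b).symm : k →+* k) (eval c F) := by
    rw [← h]
    exact ((iterateFrobeniusEquiv k r b).symm_apply_apply y).symm
  rw [h1, eval_map]
  exact eval₂_comp_left ((iterateFrobeniusEquiv k r b).symm : k →+* k) (RingHom.id k) c F

theorem cover_p {r : ℕ} [Fact r.Prime] {k : Type} [Field k] [CharP k r] [Infinite k] [PerfectRing k r]
    {S : Type} [Fintype S] {J : Type} [Fintype J] {E : ℕ} (z : J → MvPolynomial S k)
    (hE : ∀ j, (z j).totalDegree ≤ E) :
    ∃ Ψ : ℕ → J → MvPolynomial (Fin (Fintype.card S + 4)) k,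
      (∀ μ j, (Ψ μ j).totalDegree ≤ 1 + 2 * Tb E (Fintype.card S + 1) * (Fintype.card J + 1)) ∧
      ∀ f : J → k, (∀ g : MvPolynomial J k, aeval z g = 0 → eval f g = 0) →
        ∃ (μ : ℕ) (c : Fin (Fintype.card S + 4) → k), μ ≤ Tb E (Fintype.card S + 1) ∧
          ∀ j, f j = eval c (Ψ μ j) := by
  classical
  obtain ⟨D, Δ, n, π, G, hD, hΔ, hG, hcay⟩ := cayley_p (r := r) (E := E)
    (fun o : Option J => o.elim (1 : MvPolynomial S k) z)
    (by
      intro o
      cases o with
      | none => simp
      | some j => exact hE j) none rfl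
  have hT : Tb E D ≤ Tb E (Fintype.card S + 1) := Tb_mono E hD
  let e : Option J → ℕ := fun o => (Fintype.equivFin (Option J) o : ℕ)
  have he : Function.Injective e := fun a b h => (Fintype.equivFin (Option J)).injective (Fin.ext h)
  have he1 : ∀ o, e o ≤ Fintype.card J := by
    intro o
    have h1 : e o < Fintype.card (Option J) := (Fintype.equivFin (Option J) o).2
    rw [Fintype.card_option] at h1
    omega
  obtain ⟨Q, hQ, hext⟩ := extract_p (r := r) e he G
  let v0 : Fin (Fintype.card S + 4) := ⟨0, by omega⟩
  let v1 : Fin (Fintype.card S + 4) := ⟨1, by omega⟩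
  let v2 : Fin (Fintype.card S + 4) := ⟨2, by omega⟩
  let v3 : Fin D → Fin (Fintype.card S + 4) := fun l => ⟨3 + l, by have := l.2; omega⟩
  let h : Option (Option J) ⊕ Fin D → MvPolynomial (Fin (Fintype.card S + 4)) k :=
    Sum.elim (fun oo => oo.elim (X v1) fun o => X v2 ^ e o) fun l => X (v3 l)
  let Ψ0 : ℕ → J → MvPolynomial (Fin (Fintype.card S + 4)) k := fun μ j => X v0 * aeval h (Q μ (some j))
  let b : ℕ → ℕ := fun μ => n + padicValNat r μ
  refine ⟨fun μ j => map ((iterateFrobeniusEquiv k r (b μ)).symm : k →+* k) (Ψ0 μ j), ?_, ?_⟩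
  · intro μ j
    have h0 : (Ψ0 μ j).totalDegree ≤ 1 + 2 * Tb E (Fintype.card S + 1) * (Fintype.card J + 1) := by
      refine (totalDegree_mul _ _).trans ?_
      rw [totalDegree_X]
      refine Nat.add_le_add_left ?_ 1
      have h1 : ∀ v, (h v).totalDegree ≤ Fintype.card J + 1 := by
        intro v
        rcases v with oo | l
        · cases oo with
          | none =>
            change (X v1 : MvPolynomial (Fin (Fintype.card S + 4)) k).totalDegree ≤ _
            rw [totalDegree_X]; omega
          | some o =>
            change ((X v2 : MvPolynomial (Fin (Fintype.card S + 4)) k) ^ e o).totalDegree ≤ _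
            refine (totalDegree_pow _ _).trans ?_
            rw [totalDegree_X, mul_one]
            exact (he1 o).trans (Nat.le_succ _)
        · change (X (v3 l) : MvPolynomial (Fin (Fintype.card S + 4)) k).totalDegree ≤ _
          rw [totalDegree_X]; omega
      refine (covp_aeval h _ h1 _).trans (Nat.mul_le_mul_right _ ?_)
      exact (hQ μ (some j)).trans (hG.trans (Nat.mul_le_mul_left _ hT))
    refine le_trans ?_ h0
    rw [totalDegree, totalDegree]
    exact Finset.sup_mono (support_map_subset _ _)
  · intro f hf
    obtain ⟨ι, hι, Y, σ0, hcard, hY, hprod⟩ := hcay (fun o : Option J => o.elim (1 : k) f)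
      (fun g hg => cone_rel_p z f hf g hg)
    let p : Fin D → k := fun l => ∑ j, π l j * (fun o : Option J => o.elim (1 : k) f) j
    obtain ⟨μ, a, x, u, hμ1, hμ2, hfin⟩ := hext (fun o : Option J => (o.elim (1 : k) f) ^ r ^ n) p ι hι Y σ0 hY hprod
    let c : Fin (Fintype.card S + 4) → k := fun i =>
      if i.1 = 0 then u else if i.1 = 1 then x else if i.1 = 2 then a else
        if hi : i.1 - 3 < D then p ⟨i.1 - 3, hi⟩ else 0
    refine ⟨μ, fun i => (iterateFrobeniusEquiv k r (b μ)).symm (c i), hμ2.trans (hcard.le.trans (hΔ.trans hT)),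
      fun j => eval_root (b μ) c _ _ ?_⟩
    have h1 := hfin (some j)
    have h2 : (fun v => eval c (h v)) = Sum.elim (fun o => o.elim x fun i => a ^ e i) p := by
      funext v
      rcases v with oo | l
      · cases oo with
        | none =>
          change eval c (X v1) = x
          rw [eval_X]
          simp [c, v1]
        | some o =>
          change eval c (X v2 ^ e o) = a ^ e o
          rw [map_pow, eval_X]
          simp [c, v2]
      · change eval c (X (v3 l)) = p l
        rw [eval_X]
        have h3 : (v3 l).1 = 3 + l := rfl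
        simp only [c, h3]
        rw [if_neg (by omega), if_neg (by omega), if_neg (by omega)]
        have h4 : 3 + (l : ℕ) - 3 = l := by omega
        simp only [h4, l.2, dite_true, Fin.eta]
    have h5 : eval c (Ψ0 μ j) = u * eval (fun v => eval c (h v)) (Q μ (some j)) := by
      show eval c (X v0 * aeval h (Q μ (some j))) = _
      rw [map_mul, eval_X]
      have h6 : c v0 = u := by simp [c, v0]
      rw [h6]
      congr 1
      rw [← MvPolynomial.coe_aeval_eq_eval, ← MvPolynomial.coe_aeval_eq_eval]
      show aeval _ (aeval _ _) = aeval _ _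
      rw [comp_aeval_apply]
      rfl
    rw [h5, h2, ← h1]
    show f j ^ r ^ (n + padicValNat r μ) = (f j ^ r ^ n) ^ r ^ padicValNat r μ
    rw [← pow_mul, ← pow_add]

/-- the version for all infinite perfect fields -/
theorem cover' {k : Type} [Field k] [Infinite k] [PerfectField k]
    {S : Type} [Fintype S] {J : Type} [Fintype J] {E : ℕ} (z : J → MvPolynomial S k)
    (hE : ∀ j, (z j).totalDegree ≤ E) :
    ∃ Ψ : ℕ → J → MvPolynomial (Fin (Fintype.card S + 4)) k,
      (∀ μ j, (Ψ μ j).totalDegree ≤ 1 + 2 * Tb E (Fintype.card S + 1) * (Fintype.card J + 1)) ∧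
      ∀ f : J → k, (∀ g : MvPolynomial J k, aeval z g = 0 → eval f g = 0) →
        ∃ (μ : ℕ) (c : Fin (Fintype.card S + 4) → k), μ ≤ Tb E (Fintype.card S + 1) ∧
          ∀ j, f j = eval c (Ψ μ j) := by
  obtain ⟨r, hr⟩ := CharP.exists k
  rcases Nat.eq_zero_or_pos r with h0 | h0
  · subst h0
    have := CharP.charP_to_charZero k
    exact cover z hE
  · have : NeZero r := ⟨h0.ne'⟩
    have : Fact r.Prime := ⟨CharP.char_is_prime_of_pos k r |>.out⟩
    have : PerfectRing k r := PerfectField.toPerfectRing r
    exact cover_p z hE

end Pool.Agent.VPP
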