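import Pool.Agent.VPN.UpperC

/-!
# [VPP-UPPERP] the coefficient of `y_1 ⋯ y_m` is an exponential sum, over every field with an element `a ≠ 0, 1`

As `VPN/UpperC.lean` (which needs `2 ≠ 0`), with two summation variables `e, e'` for every `y_j`: put `y = e + a e'` and
`w = w0 (1 - e)(1 - e') + w1 e (1 - e') + w2 (1 - e) e'` with `w0 = -(1 + a) / a`, `w1 = - a / (1 - a)`,
`w2 = - 1 / (a (a - 1))` (the coefficients of `y` in the Lagrange polynomials for the nodes `0, 1, a`): for `b = 0, 1, 2`
the sum over `e, e' ∈ {0, 1}` of `w y ^ b` is `1` if `b = 1` and `0` if `b = 0, 2`. So the coefficient of `y_1 ⋯ y_m` in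
`P(x, y) = G_m(X = a, x = 0, y, w = 0)`, of degree at most `2` in every `y_j`, is the sum over `{0, 1} ^ (2 m)` of
`∏ j, w_j * P(x, (y_j)_j)`. The variables are `Fin (n + (m + m))`, `e_j = X (natAdd n (castAdd m j))`,
`e'_j = X (natAdd n (natAdd m j))`. Cost: `y_j` two, `w_j` six operations, the gate `NV m + 1`, the product `m`.
-/

set_option autoImplicit false

open MvPolynomial Pool.Agent.VPO Pool.Agent.VPE Pool.Agent.VPN

namespace Pool.Agent.VPP

variable {k : Type} [Field k]

/-- a sum over two families of bits of a product is a product of sums -/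
theorem sum_prod_pair {R : Type} [CommSemiring R] (m : ℕ) (F : Fin m → Fin 2 → Fin 2 → R) :
    ∑ e : Fin (m + m) → Fin 2, ∏ j, F j (e (Fin.castAdd m j)) (e (Fin.natAdd m j)) =
      ∏ j, ∑ s : Fin 2, ∑ t : Fin 2, F j s t := by
  have h1 : ∏ j, ∑ s : Fin 2, ∑ t : Fin 2, F j s t = ∏ j, ∑ x : Fin 2 × Fin 2, F j x.1 x.2 :=
    Finset.prod_congr rfl fun j _ => (Fintype.sum_prod_type (fun x : Fin 2 × Fin 2 => F j x.1 x.2)).symm
  rw [h1, Finset.prod_univ_sum, Fintype.piFinset_univ]
  refine Fintype.sum_equiv ((Fin.appendEquiv m m).symm.trans (Equiv.arrowProdEquivProdArrow _ _ _).symm) _ _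
    fun e => ?_
  exact Finset.prod_congr rfl fun j _ => rfl

/-- the bit `t` as an element of the field -/
def bit (k : Type) [Field k] (t : Fin 2) : k := ((t : ℕ) : k)

theorem bit_zero : bit k 0 = 0 := by simp [bit]

theorem bit_one : bit k 1 = 1 := by simp [bit]

/-- the node for the bits `s`, `t` -/
def nd (a : k) (s t : Fin 2) : k := bit k s + a * bit k t

/-- the bilinear function of the bits with coefficients `c` -/
def wgt (c : Fin 4 → k) (s t : Fin 2) : k := c 0 + c 1 * bit k s + (c 2 + c 3 * bit k s) * bit k t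

/-- the weights of the Lagrange formula for the nodes `0, 1, a` -/
def cf (a : k) : Fin 4 → k := ![-(1 + a) / a, - a / (1 - a) + (1 + a) / a, 1 / (a * (1 - a)) + (1 + a) / a,
  -(1 + a) / a + a / (1 - a) - 1 / (a * (1 - a))]

theorem sum_wgt {a : k} (h0 : a ≠ 0) (h1 : a ≠ 1) (b : Fin 3) :
    ∑ s : Fin 2, ∑ t : Fin 2, wgt (cf a) s t * nd a s t ^ (b : ℕ) = if b = 1 then 1 else 0 := by
  have h2 : 1 - a ≠ 0 := sub_ne_zero.2 (Ne.symm h1)
  simp only [Fin.sum_univ_two, wgt, nd, bit_zero, bit_one]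
  have e0 : cf a 0 = -(1 + a) / a := rfl
  have e1 : cf a 1 = - a / (1 - a) + (1 + a) / a := rfl
  have e2 : cf a 2 = 1 / (a * (1 - a)) + (1 + a) / a := rfl
  have e3 : cf a 3 = -(1 + a) / a + a / (1 - a) - 1 / (a * (1 - a)) := rfl
  rw [e0, e1, e2, e3]
  fin_cases b
  · simp
    field_simp
    ring
  · simp
    field_simp
    ring
  · simp
    field_simp
    ring

theorem sum_prod_wgt {a : k} (h0 : a ≠ 0) (h1 : a ≠ 1) (m : ℕ) (b : Fin m → Fin 3) :
    ∑ e : Fin (m + m) → Fin 2, ∏ j, (wgt (cf a) (e (Fin.castAdd m j)) (e (Fin.natAdd m j)) *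
      nd a (e (Fin.castAdd m j)) (e (Fin.natAdd m j)) ^ (b j : ℕ)) = if b = one m then 1 else 0 := by
  rw [sum_prod_pair m fun j s t => wgt (cf a) s t * nd a s t ^ (b j : ℕ)]
  simp only [sum_wgt h0 h1]
  by_cases hb : b = one m
  · rw [if_pos hb, hb]
    simp [one]
  · rw [if_neg hb]
    obtain ⟨j, hj⟩ : ∃ j, b j ≠ 1 := by
      by_contra hcon
      push Not at hcon
      exact hb (funext hcon)
    exact Finset.prod_eq_zero (Finset.mem_univ j) (if_neg hj)

/-- the first bit variable -/
noncomputable def xe (k : Type) [Field k] (n m : ℕ) (j : Fin m) : MvPolynomial (Fin (n + (m + m))) k :=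
  X (Fin.natAdd n (Fin.castAdd m j))

/-- the second bit variable -/
noncomputable def xe' (k : Type) [Field k] (n m : ℕ) (j : Fin m) : MvPolynomial (Fin (n + (m + m))) k :=
  X (Fin.natAdd n (Fin.natAdd m j))

/-- the polynomial `e_j + a e'_j` -/
noncomputable def yq (a : k) (n m : ℕ) (j : Fin m) : MvPolynomial (Fin (n + (m + m))) k :=
  xe k n m j + C a * xe' k n m j

/-- the weight as a polynomial -/
noncomputable def wq (c : Fin 4 → k) (n m : ℕ) (j : Fin m) : MvPolynomial (Fin (n + (m + m))) k :=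
  C (c 0) + C (c 1) * xe k n m j + (C (c 2) + C (c 3) * xe k n m j) * xe' k n m j

theorem prog_yw (G : PFamily k) (a : k) (c : Fin 4 → k) (n m s : ℕ) (hs : s ≤ m) :
    ∃ l : List (MvPolynomial (Fin (n + (m + m))) k), Comp G (8 * s) l ∧
      ∀ j : Fin m, (j : ℕ) < s → yq a n m j ∈ l ∧ wq c n m j ∈ l := by
  induction s with
  | zero => exact ⟨[], Comp.nil, fun j hj => absurd hj (by omega)⟩
  | succ s ih =>
    obtain ⟨l, h1, h2⟩ := ih (by omega)
    let j₀ : Fin m := ⟨s, by omega⟩
    have av : ∀ l' : List (MvPolynomial (Fin (n + (m + m))) k), Avail l' (xe k n m j₀) :=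
      fun l' => Or.inr (Or.inl ⟨_, rfl⟩)
    have av' : ∀ l' : List (MvPolynomial (Fin (n + (m + m))) k), Avail l' (xe' k n m j₀) :=
      fun l' => Or.inr (Or.inl ⟨_, rfl⟩)
    have avC : ∀ (l' : List (MvPolynomial (Fin (n + (m + m))) k)) (x : k), Avail l' (C x) :=
      fun l' x => Or.inl ⟨x, rfl⟩
    have avH : ∀ (l' : List (MvPolynomial (Fin (n + (m + m))) k)) (x : MvPolynomial (Fin (n + (m + m))) k),
        x ∈ l' → Avail l' x := fun l' x hx => Or.inr (Or.inr hx)
    have g1 := Comp.mul h1 (avC l a) (av' l)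
    have g2 := Comp.add g1 (av _) (avH _ _ List.mem_cons_self)
    have g3 := Comp.mul g2 (avC _ (c 1)) (av _)
    have g4 := Comp.add g3 (avC _ (c 0)) (avH _ _ List.mem_cons_self)
    have g5 := Comp.mul g4 (avC _ (c 3)) (av _)
    have g6 := Comp.add g5 (avC _ (c 2)) (avH _ _ List.mem_cons_self)
    have g7 := Comp.mul g6 (avH _ _ List.mem_cons_self) (av' _)
    have g8 := Comp.add g7 (avH _ (C (c 0) + C (c 1) * xe k n m j₀) (by simp)) (avH _ _ List.mem_cons_self)
    refine ⟨_, g8, fun j hj => ?_⟩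
    by_cases hjs : (j : ℕ) = s
    · have : j = j₀ := Fin.ext hjs
      rw [this]
      refine ⟨?_, ?_⟩
      · unfold yq
        simp
      · unfold wq
        exact List.mem_cons_self
    · obtain ⟨i1, i2⟩ := h2 j (by omega)
      refine ⟨?_, ?_⟩
      · simp only [List.mem_cons, i1, or_true]
      · simp only [List.mem_cons, i2, or_true]

theorem prog_prod' (G : PFamily k) {N m : ℕ} (w : Fin m → MvPolynomial (Fin N) k) {r : ℕ}
    {l : List (MvPolynomial (Fin N) k)} (hl : Comp G r l)
    (hy : ∀ j, w j ∈ l) (p : MvPolynomial (Fin N) k) (hp : p ∈ l) (s : ℕ) (hs : s ≤ m) :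
    ∃ l' : List (MvPolynomial (Fin N) k), Comp G (r + s) l' ∧ (∀ q ∈ l, q ∈ l') ∧
      p * ∏ j ∈ Finset.univ.filter (fun j : Fin m => (j : ℕ) < s), w j ∈ l' := by
  classical
  induction s with
  | zero =>
    refine ⟨l, hl, fun q hq => hq, ?_⟩
    have : (Finset.univ.filter fun j : Fin m => (j : ℕ) < 0) = ∅ := by
      ext j
      simp
    rw [this, Finset.prod_empty, mul_one]
    exact hp
  | succ s ih =>
    obtain ⟨l', h1, h2, h3⟩ := ih (by omega)
    let j₀ : Fin m := ⟨s, by omega⟩
    have h4 : (Finset.univ.filter fun j : Fin m => (j : ℕ) < s + 1) =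
        insert j₀ (Finset.univ.filter fun j : Fin m => (j : ℕ) < s) := by
      ext j
      simp only [Finset.mem_filter, Finset.mem_univ, true_and, Finset.mem_insert]
      constructor
      · intro h
        by_cases hjs : (j : ℕ) = s
        · exact Or.inl (Fin.ext hjs)
        · exact Or.inr (by omega)
      · rintro (rfl | h)
        · show s < s + 1
          omega
        · omega
    have h5 : j₀ ∉ (Finset.univ.filter fun j : Fin m => (j : ℕ) < s) := by
      rw [Finset.mem_filter]
      rintro ⟨-, h⟩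
      exact lt_irrefl s h
    have h6 : Comp G (r + s + 1) (((p * ∏ j ∈ Finset.univ.filter (fun j : Fin m => (j : ℕ) < s), w j) *
        w j₀) :: l') :=
      Comp.mul h1 (Or.inr (Or.inr h3)) (Or.inr (Or.inr (h2 _ (hy j₀))))
    refine ⟨_, h6, fun q hq => List.mem_cons_of_mem _ (h2 q hq), ?_⟩
    rw [h4, Finset.prod_insert h5]
    have h7 : p * (w j₀ * ∏ j ∈ Finset.univ.filter (fun j : Fin m => (j : ℕ) < s), w j) =
        (p * ∏ j ∈ Finset.univ.filter (fun j : Fin m => (j : ℕ) < s), w j) * w j₀ := by ring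
    rw [h7]
    exact List.mem_cons_self

theorem totalDegree_lin {N : ℕ} (x : MvPolynomial (Fin N) k) (hx : x.totalDegree ≤ 1) (a b : k) :
    (C a + C b * x).totalDegree ≤ 1 := by
  refine (totalDegree_add _ _).trans (max_le ?_ ?_)
  · rw [totalDegree_C]
    omega
  · refine (totalDegree_mul _ _).trans ?_
    rw [totalDegree_C, zero_add]
    exact hx

theorem totalDegree_xe (n m : ℕ) (j : Fin m) : (xe k n m j).totalDegree ≤ 1 := totalDegree_X_le _

theorem totalDegree_xe' (n m : ℕ) (j : Fin m) : (xe' k n m j).totalDegree ≤ 1 := totalDegree_X_le _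

theorem totalDegree_yq (a : k) (n m : ℕ) (j : Fin m) : (yq a n m j).totalDegree ≤ 1 := by
  unfold yq
  refine (totalDegree_add _ _).trans (max_le (totalDegree_xe n m j) ?_)
  refine (totalDegree_mul _ _).trans ?_
  rw [totalDegree_C, zero_add]
  exact totalDegree_xe' n m j

theorem totalDegree_wq (c : Fin 4 → k) (n m : ℕ) (j : Fin m) : (wq c n m j).totalDegree ≤ 2 := by
  unfold wq
  refine (totalDegree_add _ _).trans (max_le ?_ ?_)
  · exact (totalDegree_lin _ (totalDegree_xe n m j) _ _).trans (by norm_num)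
  · refine (totalDegree_mul _ _).trans ?_
    have h1 := totalDegree_lin _ (totalDegree_xe (k := k) n m j) (c 2) (c 3)
    have h2 := totalDegree_xe' (k := k) n m j
    omega

theorem coeff_is_sum_p {k : Type} [Field k] [Infinite k] (α : (Σ m, Ind m) → k)
    (u : ∀ m, (Fin (W m) → Fin (W m + 1)) → k) (m n : ℕ) (a : Fin (W m) → MvPolynomial (Fin n) k)
    (ha : ∀ i, Avail [] (a i)) :
    ∃ g : MvPolynomial (Fin (n + (m + m))) k, g.totalDegree ≤ 2 * NV m ∧ L (orc α u) g ≤ 6 * NV m + 2 ∧
      bsum g = ∑ ξ : Fin (W m) → Fin (W m + 1), C (u m ξ) * mon a ξ := by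
  classical
  obtain ⟨z, hz⟩ := Infinite.exists_notMem_finset ({0, 1} : Finset k)
  have hz0 : z ≠ 0 := fun h => hz (by simp [h])
  have hz1 : z ≠ 1 := fun h => hz (by simp [h])
  obtain ⟨c, hc⟩ : ∃ c, c = cf z := ⟨_, rfl⟩
  let a' : Fin (W m) → MvPolynomial (Fin (n + (m + m))) k := fun v => rename (Fin.castAdd (m + m)) (a v)
  have ha' : ∀ l v, Avail l (a' v) := by
    intro l v
    rcases ha v with ⟨c, hc⟩ | ⟨i, hi⟩ | h
    · refine Or.inl ⟨c, ?_⟩
      show rename (Fin.castAdd (m + m)) (a v) = _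
      rw [hc, rename_C]
    · refine Or.inr (Or.inl ⟨Fin.castAdd (m + m) i, ?_⟩)
      show rename (Fin.castAdd (m + m)) (a v) = _
      rw [hi, rename_X]
    · simp at h
  have ha'd : ∀ v, (a' v).totalDegree ≤ 1 := by
    intro v
    rcases ha' [] v with ⟨c, hc⟩ | ⟨i, hi⟩ | h
    · rw [hc, totalDegree_C]
      omega
    · rw [hi]
      exact totalDegree_X_le _
    · simp at h
  let p : Var m → MvPolynomial (Fin (n + (m + m))) k := Sum.elim a' (Sum.elim (fun _ => C 0)
    (Sum.elim (yq z n m) fun _ => C 0))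
  obtain ⟨g₀, hg₀⟩ : ∃ g₀, g₀ = aeval (Function.extend (emb m) p fun _ => C 0) ((orc α u).poly m) := ⟨_, rfl⟩
  -- the value of the gate
  have hval : g₀ = ∑ i : IC m, C (cc α u m (Sum.inl i)) * (mon a' i.1 * mon (yq z n m) i.2) := by
    rw [hg₀, gate_value, Fintype.sum_sum_type]
    have h0 : ∑ i : IH m, C (algebraMap k k (cc α u m (Sum.inr i))) * me p (Sum.inr i) = 0 := by
      apply Finset.sum_eq_zero
      rintro ⟨e, b⟩ _
      show _ * (pw p * _) = 0
      have : pw p = 0 := by
        show (C 0 : MvPolynomial (Fin (n + (m + m))) k) = 0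
        exact C_0
      rw [this, zero_mul, mul_zero]
    rw [h0, add_zero]
    rfl
  -- the program
  obtain ⟨l₁, c1, hy⟩ := prog_yw (orc α u) z c n m m le_rfl
  have hy' : ∀ j : Fin m, yq z n m j ∈ l₁ := fun j => (hy j j.2).1
  have hw' : ∀ j : Fin m, wq c n m j ∈ l₁ := fun j => (hy j j.2).2
  have hp : ∀ v, Avail l₁ (p v) := by
    rintro (v | v | v | v)
    · exact ha' l₁ v
    · exact Or.inl ⟨0, rfl⟩
    · exact Or.inr (Or.inr (hy' v))
    · exact Or.inl ⟨0, rfl⟩
  have c2 : Comp (orc α u) (8 * m + (NV m + 1)) (g₀ :: l₁) := by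
    rw [hg₀]
    exact Comp.oracle (G := orc α u) m _ c1 (gate_avail m p hp)
  obtain ⟨l₂, c3, -, hl₂⟩ := prog_prod' (orc α u) (wq c n m) c2 (fun j => List.mem_cons_of_mem _ (hw' j)) g₀
    List.mem_cons_self m le_rfl
  have hfil : (Finset.univ.filter fun j : Fin m => (j : ℕ) < m) = Finset.univ := by
    ext j
    simp
  rw [hfil] at hl₂
  have h3 : 3 * m ≤ NV m := by
    have h4 : m ≤ W m := by
      unfold W
      have h5 : m + 2 ≤ (m + 2) ^ 8 := Nat.le_self_pow (by norm_num) _
      omega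
    have h5 : W m ≤ W m * W m := by
      rcases Nat.eq_zero_or_pos (W m) with h | h
      · rw [h]
      · exact Nat.le_mul_of_pos_left _ h
    unfold NV
    omega
  refine ⟨g₀ * ∏ j, wq c n m j, ?_, ?_, ?_⟩
  · -- degree
    refine (totalDegree_mul _ _).trans ?_
    have e1 : (∏ j, wq c n m j).totalDegree ≤ m * 2 := by
      refine (totalDegree_finsetProd _ _).trans ?_
      refine (Finset.sum_le_card_nsmul _ _ 2 fun j _ => totalDegree_wq c n m j).trans ?_
      simp
    have e2 : g₀.totalDegree ≤ NV m := by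
      rw [hval]
      refine totalDegree_finsetSum_le ?_
      intro i _
      refine (totalDegree_mul _ _).trans ?_
      rw [totalDegree_C, zero_add]
      refine (totalDegree_mul _ _).trans ?_
      have h3 := totalDegree_mon_le (W m) (le_refl _) a' ha'd i.1
      have h4 := totalDegree_mon_le 2 (le_refl _) (yq z n m) (totalDegree_yq z n m) i.2
      unfold NV
      omega
    omega
  · -- cost
    refine (L_le ⟨_, c3, Or.inr (Or.inr hl₂)⟩).trans ?_
    omega
  · -- the sum
    unfold bsum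
    have hev : ∀ e : Fin (m + m) → Fin 2, aeval (Fin.append (X : Fin n → MvPolynomial (Fin n) k)
        fun j => C ((e j : ℕ) : k)) (g₀ * ∏ j, wq c n m j) =
        ∑ i : IC m, C (∏ j, (wgt c (e (Fin.castAdd m j)) (e (Fin.natAdd m j)) *
          nd z (e (Fin.castAdd m j)) (e (Fin.natAdd m j)) ^ (i.2 j : ℕ))) *
          (C (cc α u m (Sum.inl i)) * mon a i.1) := by
      intro e
      obtain ⟨Ψ, hΨ⟩ : ∃ Ψ : MvPolynomial (Fin (n + (m + m))) k →ₐ[k] MvPolynomial (Fin n) k,
        Ψ = aeval (Fin.append (X : Fin n → MvPolynomial (Fin n) k) fun j => C ((e j : ℕ) : k)) := ⟨_, rfl⟩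
      rw [← hΨ]
      have hC : ∀ c : k, Ψ (C c) = C c := fun c => by rw [hΨ, aeval_C]; rfl
      have hx : ∀ j, Ψ (xe k n m j) = C (bit k (e (Fin.castAdd m j))) := by
        intro j
        unfold xe bit
        rw [hΨ, aeval_X, Fin.append_right]
      have hx' : ∀ j, Ψ (xe' k n m j) = C (bit k (e (Fin.natAdd m j))) := by
        intro j
        unfold xe' bit
        rw [hΨ, aeval_X, Fin.append_right]
      have hyΨ : ∀ j, Ψ (yq z n m j) = C (nd z (e (Fin.castAdd m j)) (e (Fin.natAdd m j))) := by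
        intro j
        unfold yq nd
        rw [map_add, map_mul, hC, hx, hx', C_add, C_mul]
      have hwΨ : ∀ j, Ψ (wq c n m j) = C (wgt c (e (Fin.castAdd m j)) (e (Fin.natAdd m j))) := by
        intro j
        unfold wq wgt
        simp only [map_add, map_mul, hC, hx, hx']
      have haΨ : ∀ v, Ψ (a' v) = a v := by
        intro v
        show Ψ (rename (Fin.castAdd (m + m)) (a v)) = a v
        rw [hΨ, aeval_rename]
        have : (Fin.append (X : Fin n → MvPolynomial (Fin n) k) fun j => C ((e j : ℕ) : k)) ∘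
            Fin.castAdd (m + m) = X := by
          funext i
          exact Fin.append_left _ _ _
        rw [this, aeval_X_left, AlgHom.id_apply]
      have hmonΨ : ∀ {A : Type} (q : ℕ) (N : ℕ) (x : Fin N → MvPolynomial (Fin (n + (m + m))) k)
          (b : Fin N → Fin q), Ψ (mon x b) = mon (fun j => Ψ (x j)) b := by
        intro A q N x b
        unfold mon
        rw [map_prod]
        simp only [map_pow]
      rw [map_mul, map_prod, hval, map_sum, Finset.sum_mul]
      apply Finset.sum_congr rfl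
      intro i _
      rw [map_mul, map_mul, hC, hmonΨ (A := ℕ), hmonΨ (A := ℕ)]
      have h3 : (fun j => Ψ (a' j)) = a := funext haΨ
      rw [h3]
      have h4 : mon (fun j => Ψ (yq z n m j)) i.2 * ∏ j, Ψ (wq c n m j) =
          C (∏ j, (wgt c (e (Fin.castAdd m j)) (e (Fin.natAdd m j)) *
            nd z (e (Fin.castAdd m j)) (e (Fin.natAdd m j)) ^ (i.2 j : ℕ))) := by
        unfold mon
        rw [← Finset.prod_mul_distrib, map_prod]
        apply Finset.prod_congr rfl
        intro j _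
        show Ψ (yq z n m j) ^ (i.2 j : ℕ) * Ψ (wq c n m j) = _
        rw [hyΨ j, hwΨ j, ← C_pow, ← C_mul, mul_comm]
      rw [← h4]
      ring
    rw [Finset.sum_congr rfl fun e _ => hev e, Finset.sum_comm, Fintype.sum_prod_type]
    apply Finset.sum_congr rfl
    intro ξ _
    have h6 : ∀ b : Fin m → Fin 3, ∑ e : Fin (m + m) → Fin 2,
        (C (∏ j, (wgt c (e (Fin.castAdd m j)) (e (Fin.natAdd m j)) *
          nd z (e (Fin.castAdd m j)) (e (Fin.natAdd m j)) ^ (b j : ℕ))) *
        (C (cc α u m (Sum.inl (ξ, b))) * mon a ξ) : MvPolynomial (Fin n) k) =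
        if b = one m then C (u m ξ) * mon a ξ else 0 := by
      intro b
      rw [← Finset.sum_mul, ← map_sum, hc, sum_prod_wgt hz0 hz1]
      by_cases hb : b = one m
      · rw [if_pos hb, if_pos hb, C_1, one_mul]
        congr 2
        show (if wt b < wt (one m) then α ⟨m, Sum.inl (ξ, b)⟩ else if b = one m then u m ξ else 0) = u m ξ
        rw [hb, if_neg (lt_irrefl _), if_pos rfl]
      · rw [if_neg hb, if_neg hb, C_0, zero_mul]
    rw [Finset.sum_congr rfl fun b _ => h6 b]
    exact Finset.sum_ite_eq' Finset.univ (one m) _ |>.trans (if_pos (Finset.mem_univ _))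

end Pool.Agent.VPP
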