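import Pool.Agent.VPN.FinalC
import Pool.Agent.VPP.UpperP

/-!
# [VPP-SUMP] exponential sums for the polynomials covered by the oracle, over every infinite field

As `sum_of_cov` and `VNP_eq_of_bound` of `VPN/FinalC.lean`, with `coeff_is_sum_p`, which needs no hypothesis on the
characteristic.
-/

set_option autoImplicit false

open MvPolynomial Pool.Agent.VPO Pool.Agent.VPN

namespace Pool.Agent.VPP

variable {k : Type} [Field k]

theorem sum_of_cov_p [Infinite k] {α : (Σ m, Ind m) → k} {u : ∀ m, (Fin (W m) → Fin (W m + 1)) → k}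
    (hu : ∀ m, CovC m (orc α u) (u m)) (s n : ℕ) (f : MvPolynomial (Fin n) k) (hn : n ≤ s) (hf : f.totalDegree ≤ s)
    (hL : LNapp (orc α u) f ≤ s) :
    ∃ g : MvPolynomial (Fin (n + (s + s))) k, g.totalDegree ≤ 2 * NV s ∧ L (orc α u) g ≤ 6 * NV s + 2 ∧
      f = bsum g := by
  obtain ⟨a, ha, hfa⟩ := hu s n f hn hf hL
  obtain ⟨g, h3, h4, h5⟩ := coeff_is_sum_p α u s n a ha
  exact ⟨g, h3, h4, by rw [h5, hfa]⟩

theorem VNP_eq_of_bound_p {G : PFamily k}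
    (h : ∀ (s n : ℕ) (f : MvPolynomial (Fin n) k), n ≤ s → f.totalDegree ≤ s → LNapp G f ≤ s →
      ∃ g : MvPolynomial (Fin (n + (s + s))) k, g.totalDegree ≤ 2 * NV s ∧ L G g ≤ 6 * NV s + 2 ∧ f = bsum g) :
    VNPbar G ⊆ VNP G := by
  rintro f ⟨p1, hp1⟩
  obtain ⟨p2, hp2⟩ := f.vars_bdd
  obtain ⟨p3, hp3⟩ := f.deg_bdd
  let s : ℕ → ℕ := fun n => (p1 + p2 + p3).eval n
  have hs : ∀ n, s n = p1.eval n + p2.eval n + p3.eval n := fun n => by simp [s]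
  choose g hg1 hg2 hg3 using fun n => h (s n) (f.vars n) (f.poly n) ((hp2 n).trans (by rw [hs]; omega))
    ((hp3 n).trans (by rw [hs]; omega)) ((hp1 n).trans (by rw [hs]; omega))
  have hNV : ∀ n, NV (s n) = ((32 * (p1 + p2 + p3 + 2) ^ 8) * (32 * (p1 + p2 + p3 + 2) ^ 8) +
      2 * (p1 + p2 + p3) + 1 : Polynomial ℕ).eval n := by
    intro n
    unfold NV W
    rw [hs]
    simp
  refine ⟨fun n => s n + s n, g, ⟨(p1 + p2 + p3) + (p1 + p2 + p3), fun n => le_of_eq ?_⟩,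
    ⟨2 * ((32 * (p1 + p2 + p3 + 2) ^ 8) * (32 * (p1 + p2 + p3 + 2) ^ 8) + 2 * (p1 + p2 + p3) + 1),
      fun n => ?_⟩,
    ⟨6 * ((32 * (p1 + p2 + p3 + 2) ^ 8) * (32 * (p1 + p2 + p3 + 2) ^ 8) + 2 * (p1 + p2 + p3) + 1) + 2,
      fun n => ?_⟩, hg3⟩
  · rw [Polynomial.eval_add]
  · refine (hg1 n).trans ?_
    rw [Polynomial.eval_mul, ← hNV]
    simp
  · refine (hg2 n).trans ?_
    rw [Polynomial.eval_add, Polynomial.eval_mul, ← hNV]
    simp

end Pool.Agent.VPP
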