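import Mathlib

/-!
# [VPP-INSEP] the degree of a combination of the generators in characteristic r

MP_96a35c_lc, OracleCollapse over infinite perfect fields.
-/

set_option autoImplicit false

open MvPolynomial

namespace Pool.Agent.VPP

/-- the degree of an element in terms of the degree of its separable part -/
private theorem natDegree_insep {F L : Type} [Field F] [Field L] [Algebra F L] (r : ℕ)
    [Fact r.Prime] [CharP F r] (θ : L) (hθ : IsIntegral F θ) (e : ℕ)
    (hn : ∀ e', e' < e → ¬ IsSeparable F (θ ^ r ^ e')) :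
    (minpoly F θ).natDegree = r ^ e * (minpoly F (θ ^ r ^ e)).natDegree := by
  have hr : r.Prime := Fact.out
  have : ExpChar F r := ExpChar.prime hr
  have hirr : Irreducible (minpoly F θ) := minpoly.irreducible hθ
  obtain ⟨g, hg, n, hn'⟩ := hirr.hasSeparableContraction r
  have hsep : IsSeparable F (θ ^ r ^ n) := by
    have h1 : Polynomial.aeval (θ ^ r ^ n) g = 0 := by
      rw [← Polynomial.expand_aeval, hn', minpoly.aeval]
    exact hg.of_dvd (minpoly.dvd F _ h1)
  have hne : e ≤ n := by
    by_contra h
    exact hn n (not_le.mp h) hsep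
  obtain ⟨m, rfl⟩ := Nat.exists_eq_add_of_le hne
  have h2 : Polynomial.expand F (r ^ e) (Polynomial.expand F (r ^ m) g) = minpoly F θ := by
    rw [← hn', pow_add, Polynomial.expand_mul]
  have h3 : Irreducible (Polynomial.expand F (r ^ m) g) := by
    apply Polynomial.of_irreducible_expand_pow hr.ne_zero (n := e)
    rw [h2]
    exact hirr
  have h4 : (Polynomial.expand F (r ^ m) g).Monic := by
    have h5 := minpoly.monic hθ
    rw [← h2, Polynomial.Monic, Polynomial.leadingCoeff_expand (pow_pos hr.pos e)] at h5
    exact h5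
  have h5 : Polynomial.aeval (θ ^ r ^ e) (Polynomial.expand F (r ^ m) g) = 0 := by
    rw [← Polynomial.expand_aeval, h2, minpoly.aeval]
  rw [← minpoly.eq_of_irreducible_of_monic h3 h5 h4, ← h2, Polynomial.natDegree_expand, mul_comm]

/-- a primitive element which is a combination of the generators -/
private theorem prim_poly {k F L : Type} [Field k] [Field F] [Field L] [Algebra F L]
    [FiniteDimensional F L] [Algebra.IsSeparable F L]
    [Algebra k F] [Algebra k L] [IsScalarTower k F L] {J : Type} [Fintype J] (y : J → L)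
    (hy : IntermediateField.adjoin F (Set.range y) = ⊤) (e : J → ℕ) (he : Function.Injective e) :
    ∃ P : Polynomial (AlgebraicClosure F), P ≠ 0 ∧ ∀ a : k,
      P.eval (((algebraMap F (AlgebraicClosure F)).comp (algebraMap k F)) a) ≠ 0 →
      Module.finrank F L = (minpoly F (∑ j, a ^ e j • y j)).natDegree := by
  classical
  let A : Type := AlgebraicClosure F
  let f : k →+* A := (algebraMap F A).comp (algebraMap k F)
  let q : (L →ₐ[F] A) × (L →ₐ[F] A) → Polynomial A := fun s =>
    ∑ j, Polynomial.C (s.1 (y j) - s.2 (y j)) * Polynomial.X ^ e j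
  have hq : ∀ s : (L →ₐ[F] A) × (L →ₐ[F] A), s.1 ≠ s.2 → q s ≠ 0 := by
    intro s hs h0
    apply hs
    have hj : ∀ j, s.1 (y j) = s.2 (y j) := by
      intro j
      have h1 : (q s).coeff (e j) = s.1 (y j) - s.2 (y j) := by
        simp only [q, Polynomial.finsetSum_coeff, Polynomial.coeff_C_mul, Polynomial.coeff_X_pow]
        rw [Finset.sum_eq_single j]
        · simp
        · intro b _ hb
          rw [if_neg (fun h => hb (he h.symm)), mul_zero]
        · intro h
          exact absurd (Finset.mem_univ j) h
      rw [h0, Polynomial.coeff_zero] at h1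
      exact (sub_eq_zero.mp h1.symm)
    apply AlgHom.ext
    intro x
    have hx : x ∈ IntermediateField.adjoin F (Set.range y) := by
      rw [hy]; exact IntermediateField.mem_top
    induction hx using IntermediateField.adjoin_induction with
    | mem x hx =>
      obtain ⟨j, rfl⟩ := hx
      exact hj j
    | algebraMap x => rw [AlgHom.commutes, AlgHom.commutes]
    | add x y _ _ h1 h2 => rw [map_add, map_add, h1, h2]
    | inv x _ h1 => rw [map_inv₀, map_inv₀, h1]
    | mul x y _ _ h1 h2 => rw [map_mul, map_mul, h1, h2]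
  let P : Polynomial A := ∏ s : (L →ₐ[F] A) × (L →ₐ[F] A), if s.1 ≠ s.2 then q s else 1
  have hP : P ≠ 0 := by
    apply Finset.prod_ne_zero_iff.mpr
    intro s _
    by_cases hs : s.1 ≠ s.2
    · rw [if_pos hs]; exact hq s hs
    · rw [if_neg hs]; exact one_ne_zero
  refine ⟨P, hP, fun a ha => ?_⟩
  symm
  rw [← Field.primitive_element_iff_minpoly_natDegree_eq,
    Field.primitive_element_iff_algHom_eq_of_eval' F A (fun x => IsAlgClosed.splits _)]
  intro s1 s2 h12
  by_contra hne
  apply ha
  have hev : ∀ s : L →ₐ[F] A, s (∑ j, a ^ e j • y j) = ∑ j, f a ^ e j * s (y j) := by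
    intro s
    rw [map_sum]
    refine Finset.sum_congr rfl fun j _ => ?_
    rw [Algebra.smul_def, map_mul, IsScalarTower.algebraMap_apply k F L, AlgHom.commutes]
    congr 1
    rw [map_pow, map_pow]
    rfl
  have h0 : (q (s1, s2)).eval (f a) = 0 := by
    have h3 : (q (s1, s2)).eval (f a) = ∑ j, (s1 (y j) - s2 (y j)) * f a ^ e j := by
      simp only [q, Polynomial.eval_finsetSum, Polynomial.eval_mul, Polynomial.eval_C,
        Polynomial.eval_pow, Polynomial.eval_X]
    have h4 : (∑ j, f a ^ e j * s1 (y j)) = ∑ j, f a ^ e j * s2 (y j) := by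
      rw [← hev, ← hev]; exact h12
    rw [h3]
    calc ∑ j, (s1 (y j) - s2 (y j)) * f a ^ e j
        = ∑ j, f a ^ e j * s1 (y j) - ∑ j, f a ^ e j * s2 (y j) := by
          rw [← Finset.sum_sub_distrib]
          exact Finset.sum_congr rfl fun j _ => by ring
      _ = 0 := by rw [h4, sub_self]
  show P.eval (f a) = 0
  rw [Polynomial.eval_prod]
  apply Finset.prod_eq_zero (Finset.mem_univ (s1, s2))
  rw [if_pos hne]
  exact h0

/-- the parameters for which the combination of the `x j` is separable are finitely many if some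
`x j` is not separable -/
private theorem finite_sep {k F L : Type} [Field k] [Field F] [Field L] [Algebra F L]
    [Algebra k F] [Algebra k L] [IsScalarTower k F L] {J : Type} [Fintype J] (x : J → L)
    (e : J → ℕ) (he : Function.Injective e) (j0 : J) (hj0 : ¬ IsSeparable F (x j0)) :
    {a : k | IsSeparable F (∑ j, a ^ e j • x j)}.Finite := by
  classical
  let V : Submodule k L :=
    (Subalgebra.toSubmodule (separableClosure F L).toSubalgebra).restrictScalars k
  have hV : ∀ z, z ∈ V ↔ IsSeparable F z := fun z => Iff.rfl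
  have h0 : x j0 ∉ V := fun h => hj0 ((hV _).1 h)
  obtain ⟨φ, hφ, hφV⟩ := Submodule.exists_le_ker_of_notMem h0
  let P : Polynomial k := ∑ j, Polynomial.C (φ (x j)) * Polynomial.X ^ e j
  have hP : P ≠ 0 := by
    intro h
    have h1 : P.coeff (e j0) = φ (x j0) := by
      simp only [P, Polynomial.finsetSum_coeff, Polynomial.coeff_C_mul, Polynomial.coeff_X_pow]
      rw [Finset.sum_eq_single j0]
      · simp
      · intro b _ hb
        rw [if_neg (fun h => hb (he h.symm)), mul_zero]
      · intro h
        exact absurd (Finset.mem_univ j0) h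
    rw [h, Polynomial.coeff_zero] at h1
    exact hφ h1.symm
  refine (Polynomial.finite_setOfPred_isRoot hP).subset (fun a ha => ?_)
  have h2 : (∑ j, a ^ e j • x j) ∈ V := (hV _).2 ha
  have h3 : φ (∑ j, a ^ e j • x j) = 0 := LinearMap.mem_ker.1 (hφV h2)
  show P.eval a = 0
  rw [map_sum] at h3
  simp only [P, Polynomial.eval_finsetSum, Polynomial.eval_mul, Polynomial.eval_C,
    Polynomial.eval_pow, Polynomial.eval_X]
  rw [← h3]
  refine Finset.sum_congr rfl (fun j _ => ?_)
  rw [map_smul, smul_eq_mul, mul_comm]

theorem insep {r : ℕ} [Fact r.Prime] {k F L : Type} [Field k] [CharP k r] [Infinite k] [PerfectRing k r]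
    [Field F] [Field L] [Algebra F L] [Algebra k F] [Algebra k L] [IsScalarTower k F L] {J : Type} [Fintype J]
    (y : J → L) (hy : ∀ j, IsIntegral F (y j)) :
    ∃ (e : ℕ) (lam : J → k), (∀ j, IsSeparable F (y j ^ r ^ e)) ∧
      (minpoly F (∑ j, lam j • y j)).natDegree =
        r ^ e * Module.finrank F (IntermediateField.adjoin F (Set.range fun j => y j ^ r ^ e)) := by
  classical
  have hr : r.Prime := Fact.out
  have hCF : CharP F r := charP_of_injective_algebraMap (algebraMap k F).injective r
  have hCL : CharP L r := charP_of_injective_algebraMap (algebraMap k L).injective r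
  have hEF : ExpChar F r := ExpChar.prime hr
  have hEL : ExpChar L r := ExpChar.prime hr
  -- powers of separable elements are separable
  have hpow : ∀ (z : L) (m n : ℕ), m ≤ n → IsSeparable F (z ^ r ^ m) → IsSeparable F (z ^ r ^ n) := by
    intro z m n hmn h
    obtain ⟨d, rfl⟩ := Nat.exists_eq_add_of_le hmn
    rw [pow_add, pow_mul]
    exact mem_separableClosure_iff.1 (pow_mem (mem_separableClosure_iff.2 h) _)
  have hex : ∃ e, ∀ j, IsSeparable F (y j ^ r ^ e) := by
    have h1 : ∀ j, ∃ n, IsSeparable F (y j ^ r ^ n) := by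
      intro j
      obtain ⟨g, hg, n, hn⟩ := (minpoly.irreducible (hy j)).hasSeparableContraction r
      refine ⟨n, ?_⟩
      have h2 : Polynomial.aeval (y j ^ r ^ n) g = 0 := by
        rw [← Polynomial.expand_aeval, hn, minpoly.aeval]
      exact hg.of_dvd (minpoly.dvd F _ h2)
    choose n hn using h1
    exact ⟨Finset.univ.sup n, fun j => hpow _ _ _ (Finset.le_sup (Finset.mem_univ j)) (hn j)⟩
  obtain ⟨e, he, hmin⟩ : ∃ e, (∀ j, IsSeparable F (y j ^ r ^ e)) ∧
      ∀ e' < e, ¬ ∀ j, IsSeparable F (y j ^ r ^ e') :=
    ⟨Nat.find hex, Nat.find_spec hex, fun e' h => Nat.find_min hex h⟩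
  let i : J → ℕ := fun j => (Fintype.equivFin J j : ℕ)
  have hi : Function.Injective i := fun a b h => (Fintype.equivFin J).injective (Fin.ext h)
  -- the separable part
  let w : J → L := fun j => y j ^ r ^ e
  let L' : IntermediateField F L := IntermediateField.adjoin F (Set.range w)
  have hsepw : ∀ z ∈ Set.range w, IsSeparable F z := by
    rintro z ⟨j, rfl⟩
    exact he j
  have hfd : FiniteDimensional F L' :=
    IntermediateField.finiteDimensional_adjoin (fun z hz => (hsepw z hz).isIntegral)
  have hsL : Algebra.IsSeparable F L' :=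
    (IntermediateField.isSeparable_adjoin_iff_isSeparable F L).2 hsepw
  let w' : J → L' := fun j => ⟨w j, IntermediateField.subset_adjoin F _ ⟨j, rfl⟩⟩
  have htop : IntermediateField.adjoin F (Set.range w') = ⊤ := by
    apply IntermediateField.lift_injective L'
    rw [IntermediateField.lift_adjoin, IntermediateField.lift_top, ← Set.range_comp]
    rfl
  obtain ⟨P, hP, hP'⟩ := prim_poly (k := k) w' htop i hi
  let f : k →+* AlgebraicClosure F :=
    (algebraMap F (AlgebraicClosure F)).comp (algebraMap k F)
  -- the bad parameters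
  have hinj : ∀ m : ℕ, Function.Injective (fun a : k => a ^ r ^ m) := by
    intro m a b h
    have h1 : iterateFrobenius k r m a = iterateFrobenius k r m b := by
      rw [iterateFrobenius_def, iterateFrobenius_def]
      exact h
    exact (iterateFrobenius k r m).injective h1
  have hbad1 : {a : k | P.eval (f (a ^ r ^ e)) = 0}.Finite := by
    have h1 : {b : k | P.eval (f b) = 0}.Finite := by
      have h2 : {x | P.IsRoot x}.Finite := Polynomial.finite_setOfPred_isRoot hP
      exact h2.preimage f.injective.injOn
    exact h1.preimage (hinj e).injOn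
  have hbad2 : ∃ B : Set k, B.Finite ∧ ∀ a ∉ B, ∀ e' < e,
      ¬ IsSeparable F ((∑ j, (a ^ i j) • y j) ^ r ^ e') := by
    rcases Nat.eq_zero_or_pos e with h0 | h0
    · exact ⟨∅, Set.finite_empty, fun a _ e' h => absurd h (by omega)⟩
    · have h1 := hmin (e - 1) (by omega)
      push Not at h1
      obtain ⟨j0, hj0⟩ := h1
      have h2 := finite_sep (k := k) (F := F) (fun j => y j ^ r ^ (e - 1)) i hi j0 hj0
      refine ⟨_, h2.preimage (hinj (e - 1)).injOn, fun a ha e' he' hs => ha ?_⟩
      have h3 := hpow _ e' (e - 1) (by omega) hs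
      show IsSeparable F (∑ j, (a ^ r ^ (e - 1)) ^ i j • y j ^ r ^ (e - 1))
      rw [sum_pow_char_pow] at h3
      convert h3 using 2
      rename_i j hj
      rw [smul_pow, ← pow_mul, ← pow_mul, mul_comm]
  obtain ⟨B, hB, hB'⟩ := hbad2
  obtain ⟨a, ha⟩ := (hbad1.union hB).infinite_compl.nonempty
  rw [Set.mem_compl_iff, Set.mem_union, not_or] at ha
  refine ⟨e, fun j => a ^ i j, he, ?_⟩
  have hθ : IsIntegral F (∑ j, (a ^ i j) • y j) := by
    refine IsIntegral.sum _ (fun j _ => ?_)
    rw [Algebra.smul_def, IsScalarTower.algebraMap_apply k F L]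
    exact isIntegral_algebraMap.mul (hy j)
  rw [natDegree_insep r _ hθ e (hB' a ha.2)]
  congr 1
  have h4 := hP' (a ^ r ^ e) ha.1
  have h5 : (∑ j, (a ^ i j) • y j) ^ r ^ e = ((∑ j, ((a ^ r ^ e) ^ i j) • w' j : L') : L) := by
    rw [sum_pow_char_pow]
    rw [IntermediateField.coe_sum]
    refine Finset.sum_congr rfl (fun j _ => ?_)
    rw [smul_pow, ← pow_mul, ← pow_mul, mul_comm]
    rfl
  rw [h5, ← IntermediateField.minpoly_eq, ← h4]

end Pool.Agent.VPP
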