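import Pool.Agent.VPE.NormP
import Pool.Agent.VPE.Cayley

/-!
# [VPP-SCALEW] the norm of the `q`-th powers under scaling of `t`

As `VPE/Scale.lean` and `deg_bound` of `VPE/Cayley.lean`, for the family `tk (z j) ^ q`, which is multiplied by `τ ^ q`.

For `τ ≠ 0` let `s` be the automorphism of `KK k S` over `k` which fixes the `X (some i)` and maps `t = X none` to `τ t` (automorphism of the polynomial ring,
extended to the fraction field: `IsFractionRing.fieldEquivOfAlgEquiv` or `IsFractionRing.ringEquivOfRingEquiv`). It maps `tk w` to `τ • tk w`. So it maps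
`FP k P` and `LP k P y` onto themselves, for `P l = tk (p l)`, `y j = tk (z j)`, and the element `el P y T lam` to `el P y T (τ • lam)`. By
`Algebra.norm_eq_of_equiv_equiv` it maps the norm to the norm: `s (nrm P y T lam) = nrm P y T (τ • lam)`. And `s (aeval P g) = aeval (τ • P) g`.
-/

set_option autoImplicit false

open MvPolynomial

namespace Pool.Agent.VPP

open Pool.Agent.VPE

variable {k : Type} [Field k] {S : Type}

section

variable {K : Type} [Field K] [Algebra k K] {D : ℕ} {P : Fin D → K} {J : Type} {y : J → K}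

private theorem sc_memF (s : K ≃ₐ[k] K) {τ : k} (hP : ∀ l, s (P l) = τ • P l) : ∀ x ∈ FP k P, s x ∈ FP k P := by
  intro x hx
  induction hx using IntermediateField.adjoin_induction with
  | mem x hx =>
    obtain ⟨l, rfl⟩ := hx
    rw [hP, Algebra.smul_def]
    exact mul_mem ((FP k P).algebraMap_mem τ) (IntermediateField.subset_adjoin _ _ ⟨l, rfl⟩)
  | algebraMap a =>
    rw [s.commutes]
    exact (FP k P).algebraMap_mem a
  | add a b _ _ ha hb =>
    rw [map_add]
    exact add_mem ha hb
  | inv a _ ha =>
    rw [map_inv₀]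
    exact inv_mem ha
  | mul a b _ _ ha hb =>
    rw [map_mul]
    exact mul_mem ha hb

private theorem sc_memL (s : K ≃ₐ[k] K) {τ : k} (hF : ∀ x ∈ FP k P, s x ∈ FP k P) (hy : ∀ j, s (y j) = τ • y j) :
    ∀ x ∈ LP k P y, s x ∈ LP k P y := by
  intro x hx
  induction hx using IntermediateField.adjoin_induction with
  | mem x hx =>
    obtain ⟨l, rfl⟩ := hx
    rw [hy, Algebra.smul_def]
    refine mul_mem ?_ (IntermediateField.subset_adjoin _ _ ⟨l, rfl⟩)
    have := (LP k P y).algebraMap_mem (algebraMap k (FP k P) τ)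
    rwa [← IsScalarTower.algebraMap_apply] at this
  | algebraMap a =>
    exact (LP k P y).algebraMap_mem ⟨s a, hF a a.2⟩
  | add a b _ _ ha hb =>
    rw [map_add]
    exact add_mem ha hb
  | inv a _ ha =>
    rw [map_inv₀]
    exact inv_mem ha
  | mul a b _ _ ha hb =>
    rw [map_mul]
    exact mul_mem ha hb

private theorem sc_nrm [Fintype J] (s : K ≃ₐ[k] K) {τ τ' : k} (hτ : τ ≠ 0) (hτ' : τ' ≠ 0)
    (hP : ∀ l, s (P l) = τ • P l) (hy : ∀ j, s (y j) = τ' • y j) (T : k) (lam : J → k) :
    s (nrm P y T lam) = nrm P y T (fun j => τ' * lam j) := by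
  have hP' : ∀ l, s.symm (P l) = τ⁻¹ • P l := by
    intro l
    rw [AlgEquiv.symm_apply_eq, map_smul, hP, smul_smul, inv_mul_cancel₀ hτ, one_smul]
  have hy' : ∀ j, s.symm (y j) = τ'⁻¹ • y j := by
    intro l
    rw [AlgEquiv.symm_apply_eq, map_smul, hy, smul_smul, inv_mul_cancel₀ hτ', one_smul]
  have hF := sc_memF s hP
  have hF' := sc_memF s.symm hP'
  have hL := sc_memL s hF hy
  have hL' := sc_memL s.symm hF' hy'
  let e₁ : FP k P ≃+* FP k P :=
    { toFun := fun x => ⟨s x, hF x x.2⟩
      invFun := fun x => ⟨s.symm x, hF' x x.2⟩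
      left_inv := fun x => Subtype.ext (s.symm_apply_apply x)
      right_inv := fun x => Subtype.ext (s.apply_symm_apply x)
      map_mul' := fun a b => Subtype.ext (map_mul s (a : K) b)
      map_add' := fun a b => Subtype.ext (map_add s (a : K) b) }
  let e₂ : LP k P y ≃+* LP k P y :=
    { toFun := fun x => ⟨s x, hL x x.2⟩
      invFun := fun x => ⟨s.symm x, hL' x x.2⟩
      left_inv := fun x => Subtype.ext (s.symm_apply_apply x)
      right_inv := fun x => Subtype.ext (s.apply_symm_apply x)
      map_mul' := fun a b => Subtype.ext (map_mul s (a : K) b)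
      map_add' := fun a b => Subtype.ext (map_add s (a : K) b) }
  have he : RingHom.comp (algebraMap (FP k P) (LP k P y)) (e₁ : FP k P →+* FP k P) =
      RingHom.comp (e₂ : LP k P y →+* LP k P y) (algebraMap (FP k P) (LP k P y)) := by
    ext x
    rfl
  have h1 := Algebra.norm_eq_of_equiv_equiv e₁ e₂ he (el P y T lam)
  have h2 : e₂ (el P y T lam) = el P y T (fun j => τ' * lam j) := by
    apply Subtype.ext
    have c1 : ∀ mu : J → k, ((el P y T mu : LP k P y) : K) = algebraMap k K T - ∑ j, mu j • y j := by
      intro mu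
      have c0 : ((el P y T mu : LP k P y) : K) = algebraMap (LP k P y) K (el P y T mu) := rfl
      rw [c0, el, map_sub, map_sum]
      rfl
    have c2 : ((e₂ (el P y T lam) : LP k P y) : K) = s ((el P y T lam : LP k P y) : K) := rfl
    rw [c2, c1, c1, map_sub, s.commutes, map_sum]
    congr 1
    refine Finset.sum_congr rfl fun j _ => ?_
    rw [map_smul, hy, smul_smul, mul_comm]
  rw [h2] at h1
  unfold nrm
  rw [h1]
  have h3 : ∀ x : FP k P, s (algebraMap (FP k P) K (e₁.symm x)) = algebraMap (FP k P) K x := fun x =>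
    s.apply_symm_apply x
  exact h3 _

private theorem sc_aeval (s : K ≃ₐ[k] K) (f : Fin D → K) (g : MvPolynomial (Fin D) k) :
    s (aeval f g) = aeval (fun l => s (f l)) g :=
  MvPolynomial.comp_aeval_apply (φ := (s : K →ₐ[k] K)) f g

end

/-- scaling of `t` in the polynomial ring -/
private noncomputable def scP (k S : Type) [Field k] (τ : k) :
    MvPolynomial (Option S) k →ₐ[k] MvPolynomial (Option S) k :=
  aeval (fun o => o.elim (C τ * X none) (fun i => X (some i)))

private theorem scP_comp (τ σ : k) (h : τ * σ = 1) :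
    (scP k S τ).comp (scP k S σ) = AlgHom.id k (MvPolynomial (Option S) k) := by
  apply MvPolynomial.algHom_ext
  intro o
  rcases o with _ | i
  · simp only [scP, AlgHom.comp_apply, aeval_X, Option.elim, map_mul, AlgHom.id_apply]
    rw [← MvPolynomial.algebraMap_eq, AlgHom.commutes, MvPolynomial.algebraMap_eq, ← mul_assoc, ← C_mul, mul_comm σ τ, h, C_1,
      one_mul]
  · simp only [scP, AlgHom.comp_apply, aeval_X, Option.elim, AlgHom.id_apply]

private theorem scP_tz (τ : k) (w : MvPolynomial S k) : scP k S τ (tz w) = τ • tz w := by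
  unfold tz
  have h : scP k S τ (rename some w) = rename some w := by
    unfold scP
    rw [aeval_rename]
    have : ((fun o : Option S => o.elim (C τ * X none) (fun i => X (some i)) : Option S → MvPolynomial (Option S) k) ∘ some)
        = fun i => X (some i) := rfl
    rw [this]
    have hr : (rename some : MvPolynomial S k →ₐ[k] MvPolynomial (Option S) k) = aeval fun i => X (some i) := by
      apply MvPolynomial.algHom_ext
      intro i
      rw [rename_X, aeval_X]
    rw [hr]
  rw [map_mul, h]
  have h0 : scP k S τ (X none) = C τ * X none := by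
    unfold scP
    rw [aeval_X]
    rfl
  rw [h0, smul_eq_C_mul, mul_assoc]

theorem scale_w {D : ℕ} (p : Fin D → MvPolynomial S k) {J : Type} [Fintype J] (z : J → MvPolynomial S k) (q : ℕ) {τ : k}
    (hτ : τ ≠ 0) (T : k) (lam : J → k) (g : MvPolynomial (Fin D) k)
    (hg : aeval (fun l => tk (p l)) g = nrm (fun l => tk (p l)) (fun j => tk (z j) ^ q) T lam) :
    aeval (fun l => τ • tk (p l)) g = nrm (fun l => tk (p l)) (fun j => tk (z j) ^ q) T (fun j => τ ^ q * lam j) := by
  let e : MvPolynomial (Option S) k ≃ₐ[k] MvPolynomial (Option S) k :=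
    AlgEquiv.ofAlgHom (scP k S τ) (scP k S τ⁻¹) (scP_comp _ _ (mul_inv_cancel₀ hτ)) (scP_comp _ _ (inv_mul_cancel₀ hτ))
  let s : KK k S ≃ₐ[k] KK k S := IsFractionRing.algEquivOfAlgEquiv e
  have hs : ∀ w : MvPolynomial S k, s (tk w) = τ • tk w := by
    intro w
    have h1 : s (tk w) = algebraMap (MvPolynomial (Option S) k) (KK k S) (e (tz w)) :=
      IsFractionRing.algEquivOfAlgEquiv_algebraMap e (tz w)
    have h2 : e (tz w) = τ • tz w := scP_tz τ w
    rw [h1, h2, ← tz_smul]
    exact tk_smul τ w
  have hsq : ∀ w : MvPolynomial S k, s (tk w ^ q) = τ ^ q • tk w ^ q := by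
    intro w
    rw [map_pow, hs, smul_pow]
  rw [← sc_nrm s hτ (pow_ne_zero q hτ) (fun l => hs (p l)) (fun j => hsq (z j)) T lam, ← hg]
  rw [sc_aeval s]
  simp only [hs]

/-- coefficients under scaling of the variables -/
private theorem coeff_scale {k : Type} [Field k] {D : ℕ} (τ : k) (g : MvPolynomial (Fin D) k) (ν : Fin D →₀ ℕ) :
    coeff ν (aeval (fun l => C τ * X l : Fin D → MvPolynomial (Fin D) k) g) =
      τ ^ (∑ i, ν i) * coeff ν g := by
  induction g using MvPolynomial.induction_on' with
  | monomial m a =>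
    have h1 : aeval (fun l => C τ * X l : Fin D → MvPolynomial (Fin D) k) (monomial m a) =
        monomial m (a * τ ^ (∑ i, m i)) := by
      rw [aeval_monomial, Finsupp.prod_fintype _ _ (fun i => pow_zero _)]
      simp only [mul_pow]
      rw [Finset.prod_mul_distrib, Finset.prod_pow_eq_pow_sum, MvPolynomial.algebraMap_eq,
        MvPolynomial.monomial_eq, Finsupp.prod_fintype _ _ (fun i => pow_zero _), C_mul, C_pow]
      ring
    rw [h1, coeff_monomial, coeff_monomial]
    split_ifs with h
    · rw [h]; ring
    · simp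
  | add p q hp hq =>
    rw [map_add, coeff_add, coeff_add, hp, hq]; ring

/-- the polynomial of the coefficients `coeff ν` -/
private noncomputable def sect {k : Type} [Field k] {D : ℕ} {I : Type} (G : MvPolynomial I (MvPolynomial (Fin D) k))
    (ν : Fin D →₀ ℕ) : MvPolynomial I k := ∑ m ∈ G.support, monomial m (coeff ν (coeff m G))

private theorem coeff_sect {k : Type} [Field k] {D : ℕ} {I : Type} (G : MvPolynomial I (MvPolynomial (Fin D) k))
    (ν : Fin D →₀ ℕ) (m : I →₀ ℕ) : coeff m (sect G ν) = coeff ν (coeff m G) := by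
  classical
  unfold sect
  rw [coeff_sum]
  simp only [coeff_monomial]
  rw [Finset.sum_ite_eq' G.support m]
  split_ifs with h
  · rfl
  · rw [notMem_support_iff.1 h, coeff_zero]

private theorem totalDegree_sect {k : Type} [Field k] {D : ℕ} {I : Type} (G : MvPolynomial I (MvPolynomial (Fin D) k))
    (ν : Fin D →₀ ℕ) : (sect G ν).totalDegree ≤ G.totalDegree := by
  unfold sect
  refine totalDegree_finsetSum_le fun m hm => ?_
  refine (totalDegree_monomial_le _ _).trans ?_
  exact le_totalDegree hm

private theorem eval_sect {k : Type} [Field k] {D : ℕ} {I : Type} [Fintype I] (G : MvPolynomial I (MvPolynomial (Fin D) k))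
    (ν : Fin D →₀ ℕ) (x : I → k) : eval x (sect G ν) = coeff ν (eval (fun o => C (x o)) G) := by
  unfold sect
  rw [map_sum, eval_eq', coeff_sum]
  refine Finset.sum_congr rfl fun m _ => ?_
  rw [eval_monomial, Finsupp.prod_fintype _ _ (fun i => pow_zero _)]
  have : (∏ i, (C (x i) : MvPolynomial (Fin D) k) ^ m i) = C (∏ i, x i ^ m i) := by
    rw [map_prod]
    simp only [C_pow]
  rw [this, mul_comm (coeff m G), coeff_C_mul, mul_comm]

theorem deg_bound_w {k : Type} [Field k] [Infinite k] {S : Type} {D : ℕ} (p : Fin D → MvPolynomial S k)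
    (hP : AlgebraicIndependent k fun l => tk (p l)) {J : Type}
    [Fintype J] (z : J → MvPolynomial S k) (q Δ : ℕ) (G : MvPolynomial (Option J) (MvPolynomial (Fin D) k))
    (hG : G.totalDegree ≤ Δ)
    (h : ∀ (T : k) (lam : J → k), aeval (fun l => tk (p l)) (eval (fun o => C (o.elim T lam)) G) =
      nrm (fun l => tk (p l)) (fun j => tk (z j) ^ q) T lam) (m : Option J →₀ ℕ) :
    (coeff m G).totalDegree ≤ q * Δ := by
  -- scaling
  have hsc : ∀ (T : k) (lam : J → k) (τ : k), τ ≠ 0 → ∀ ν : Fin D →₀ ℕ,
      τ ^ (∑ i, ν i) * coeff ν (eval (fun o => C (o.elim T lam)) G) =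
        coeff ν (eval (fun o => C (o.elim T (fun j => τ ^ q * lam j))) G) := by
    intro T lam τ hτ ν
    have h1 := scale_w p z q hτ T lam _ (h T lam)
    rw [← h T (fun j => τ ^ q * lam j)] at h1
    have h2 : aeval (fun l => τ • tk (p l)) (eval (fun o => C (o.elim T lam)) G) =
        aeval (fun l => tk (p l)) (aeval (fun l => C τ * X l : Fin D → MvPolynomial (Fin D) k)
          (eval (fun o => C (o.elim T lam)) G)) := by
      rw [← AlgHom.comp_apply]
      congr 1
      refine MvPolynomial.algHom_ext fun l => ?_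
      rw [AlgHom.comp_apply, aeval_X, aeval_X, map_mul, aeval_X, aeval_C, Algebra.smul_def]
    rw [h2] at h1
    have h3 := hP h1
    rw [← h3, coeff_scale]
  -- high coefficients vanish
  have hv : ∀ ν : Fin D →₀ ℕ, q * Δ < ∑ i, ν i → sect G ν = 0 := by
    intro ν hν
    refine MvPolynomial.funext fun x => ?_
    rw [map_zero]
    set T := x none with hT
    set lam : J → k := fun j => x (some j) with hlam
    have hx : (fun o => (C (x o) : MvPolynomial (Fin D) k)) = fun o => C (o.elim T lam) := by
      funext o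
      cases o <;> rfl
    set c := eval x (sect G ν) with hc
    -- univariate polynomial
    let Q : Polynomial k := aeval (fun o : Option J => o.elim (Polynomial.C T)
      (fun j => Polynomial.C (lam j) * Polynomial.X ^ q)) (sect G ν)
    have hQdeg : Q.natDegree ≤ q * Δ := by
      have := MvPolynomial.aeval_natDegree_le (sect G ν) ((totalDegree_sect G ν).trans hG)
        (fun o : Option J => o.elim (Polynomial.C T) (fun j => Polynomial.C (lam j) * Polynomial.X ^ q))
        (n := q) (fun o => by
          cases o with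
          | none => simp
          | some j => exact (Polynomial.natDegree_C_mul_le _ _).trans (Polynomial.natDegree_X_pow_le q))
      rwa [mul_comm] at this
    have hQe : ∀ τ : k, Polynomial.eval τ Q = eval (fun o : Option J => o.elim T (fun j => τ ^ q * lam j)) (sect G ν) := by
      intro τ
      have e1 : Polynomial.eval τ Q = Polynomial.aeval τ Q := by
        rw [Polynomial.coe_aeval_eq_eval]
      rw [e1]
      show ((Polynomial.aeval τ).comp (aeval _)) (sect G ν) = _
      rw [← MvPolynomial.coe_aeval_eq_eval]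
      show _ = (aeval (fun o : Option J => o.elim T (fun j => τ ^ q * lam j)) : MvPolynomial (Option J) k →ₐ[k] k) (sect G ν)
      congr 1
      refine MvPolynomial.algHom_ext fun o => ?_
      rw [AlgHom.comp_apply, aeval_X, aeval_X]
      cases o with
      | none => exact Polynomial.aeval_C _ _
      | some j =>
        show Polynomial.aeval τ (Polynomial.C (lam j) * Polynomial.X ^ q) = τ ^ q * lam j
        rw [map_mul, map_pow, Polynomial.aeval_C, Polynomial.aeval_X]
        exact mul_comm _ _
    have hQ : Q = Polynomial.C c * Polynomial.X ^ (∑ i, ν i) := by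
      refine Polynomial.eq_of_infinite_eval_eq _ _ ?_
      refine (Set.finite_singleton (0 : k)).infinite_compl.mono ?_
      intro τ hτ
      have hτ0 : τ ≠ 0 := hτ
      show Polynomial.eval τ Q = _
      rw [hQe, eval_sect, ← hsc T lam τ hτ0 ν, Polynomial.eval_mul, Polynomial.eval_C, Polynomial.eval_pow,
        Polynomial.eval_X, hc, eval_sect, hx]
      ring
    have hc0 : Q.coeff (∑ i, ν i) = c := by
      rw [hQ, Polynomial.coeff_C_mul, Polynomial.coeff_X_pow_self, mul_one]
    rw [← hc0]
    exact Polynomial.coeff_eq_zero_of_natDegree_lt (lt_of_le_of_lt hQdeg hν)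
  -- conclusion
  rw [MvPolynomial.totalDegree]
  refine Finset.sup_le fun ν hν => ?_
  by_contra hcon
  push_neg at hcon
  have hs : (ν.sum fun _ e => e) = ∑ i, ν i := Finsupp.sum_fintype _ _ (fun _ => rfl)
  rw [hs] at hcon
  have h0 := coeff_sect G ν m
  rw [hv ν hcon, coeff_zero] at h0
  exact (mem_support_iff.1 hν) h0.symm


end Pool.Agent.VPP
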