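import Pool.Agent.VPE.NormP

/-!
# [VPP-SPECS] specialisation of the norm, for separable elements

`Ω` = algebraic closure of `LP k P y`, `ι` = the set of `FP k P`-embeddings of `LP k P y` into `Ω`; `Algebra.norm_eq_prod_embeddings` and
`AlgHom.card` give the number of embeddings (char 0: separable) and the norm as a product. Let `A = Algebra.adjoin k (Set.range P)`,
`B = Algebra.adjoin k (Set.range (Sum.elim y P))` (subalgebras of `K`, inside `LP k P y`, hence in `Ω`), `Cl` = integral closure of `A` in `Ω`. By `hrel` there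
is a `k`-algebra homomorphism `χ : B → k` with `χ (y j) = f j`, `χ (P l) = p l` (`B` is the quotient of the polynomial ring by the relations). `Cl` is integral
over `B`; the maximal ideal `ker χ` lies under a maximal ideal `M` of `Cl` (`Ideal.exists_ideal_over_maximal_of_isIntegral`); `Cl / M` is algebraic over `k`, so
it embeds in `AlgebraicClosure k` (`IsAlgClosed.lift`): this gives a `k`-algebra homomorphism `ψ : Cl → AlgebraicClosure k` with `ψ b = χ b` for `b ∈ B`
(as `b - χ b ∈ M`). Put `Y σ j = ψ (σ (y j))` and `σ0` = the inclusion. If `aeval P g = nrm P y T lam` then `eval p g = χ (aeval P g) = ψ (∏ σ (T - ∑ lam j y j))`.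
-/

set_option autoImplicit false

open MvPolynomial

namespace Pool.Agent.VPP

open Pool.Agent.VPE

private theorem spec_psi {k : Type} [Field k] {R : Type} [CommRing R] [Algebra k R] {Ω : Type} [Field Ω]
    [Algebra R Ω] (χ : R →ₐ[k] k) (hker : ∀ r, algebraMap R Ω r = 0 → χ r = 0) :
    ∃ ψ : integralClosure R Ω →+* AlgebraicClosure k,
      ∀ r : R, ψ (algebraMap R (integralClosure R Ω) r) = algebraMap k (AlgebraicClosure k) (χ r) := by
  have hsurj : Function.Surjective (χ : R →+* k) := fun a => ⟨algebraMap k R a, by simp⟩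
  have : (RingHom.ker (χ : R →+* k)).IsMaximal := RingHom.ker_isMaximal_of_surjective _ hsurj
  have hle : RingHom.ker (algebraMap R (integralClosure R Ω)) ≤ RingHom.ker (χ : R →+* k) := by
    intro r hr
    rw [RingHom.mem_ker] at hr ⊢
    refine hker r ?_
    have : algebraMap R Ω r = algebraMap (integralClosure R Ω) Ω (algebraMap R (integralClosure R Ω) r) := rfl
    rw [this, hr, map_zero]
  obtain ⟨Q, hQ, hQc⟩ := Ideal.exists_ideal_over_maximal_of_isIntegral (S := integralClosure R Ω)
    (RingHom.ker (χ : R →+* k)) hle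
  let : Field (integralClosure R Ω ⧸ Q) := Ideal.Quotient.field Q
  letI : Algebra k (integralClosure R Ω ⧸ Q) :=
    ((Ideal.Quotient.mk Q).comp ((algebraMap R (integralClosure R Ω)).comp (algebraMap k R))).toAlgebra
  have hfac : ∀ r : R, Ideal.Quotient.mk Q (algebraMap R (integralClosure R Ω) r) =
      algebraMap k (integralClosure R Ω ⧸ Q) (χ r) := by
    intro r
    show _ = Ideal.Quotient.mk Q (algebraMap R (integralClosure R Ω) (algebraMap k R (χ r)))
    rw [Ideal.Quotient.eq, ← map_sub]
    show r - algebraMap k R (χ r) ∈ Ideal.comap (algebraMap R (integralClosure R Ω)) Q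
    rw [hQc, RingHom.mem_ker]
    simp
  have hint : Algebra.IsIntegral k (integralClosure R Ω ⧸ Q) := by
    constructor
    intro x
    obtain ⟨x, rfl⟩ := Ideal.Quotient.mk_surjective x
    obtain ⟨q, hq, hq0⟩ : IsIntegral R x := Algebra.IsIntegral.isIntegral x
    refine ⟨q.map (χ : R →+* k), hq.map _, ?_⟩
    rw [Polynomial.eval₂_map]
    have hc : (algebraMap k (integralClosure R Ω ⧸ Q)).comp (χ : R →+* k) =
        (Ideal.Quotient.mk Q).comp (algebraMap R (integralClosure R Ω)) := by
      ext r; exact (hfac r).symm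
    rw [hc, ← Polynomial.hom_eval₂, hq0, map_zero]
  have : Algebra.IsAlgebraic k (integralClosure R Ω ⧸ Q) := inferInstance
  let ψ0 : (integralClosure R Ω ⧸ Q) →ₐ[k] AlgebraicClosure k := IsAlgClosed.lift
  refine ⟨(ψ0 : (integralClosure R Ω ⧸ Q) →+* AlgebraicClosure k).comp (Ideal.Quotient.mk Q), fun r => ?_⟩
  show ψ0 (Ideal.Quotient.mk Q (algebraMap R (integralClosure R Ω) r)) = _
  rw [hfac r]
  exact ψ0.commutes _

private theorem spec_gen {k F L : Type} [Field k] [Field F] [Field L] [Algebra k F] [Algebra k L] [Algebra F L]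
    [IsScalarTower k F L] [FiniteDimensional F L] [Algebra.IsSeparable F L] {D : ℕ} {J : Type} [Fintype J] (PF : Fin D → F)
    (y : J → L)
    (hy : ∀ j, ∃ q : Polynomial (MvPolynomial (Fin D) k), q.Monic ∧
      q.eval₂ ((algebraMap F L).comp (aeval PF : MvPolynomial (Fin D) k →ₐ[k] F).toRingHom) (y j) = 0)
    (f : J → k) (p : Fin D → k)
    (hrel : ∀ g : MvPolynomial (J ⊕ Fin D) k, aeval (Sum.elim y fun l => algebraMap F L (PF l)) g = 0 →
      eval (Sum.elim f p) g = 0) :
    ∃ (ι : Type) (_ : Fintype ι) (Y : ι → J → AlgebraicClosure k) (σ0 : ι),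
      Fintype.card ι = Module.finrank F L ∧
      (∀ j, Y σ0 j = algebraMap k (AlgebraicClosure k) (f j)) ∧
      ∀ (T : k) (lam : J → k) (g : MvPolynomial (Fin D) k),
        aeval PF g = Algebra.norm F (algebraMap k L T - ∑ j, lam j • y j) →
        algebraMap k (AlgebraicClosure k) (eval p g) =
          ∏ σ, (algebraMap k (AlgebraicClosure k) T - ∑ j, algebraMap k (AlgebraicClosure k) (lam j) * Y σ j) := by
  classical
  let Ω := AlgebraicClosure L
  let a : MvPolynomial (J ⊕ Fin D) k →ₐ[k] Ω :=
    aeval (Sum.elim (fun j => algebraMap L Ω (y j)) fun l => algebraMap F Ω (PF l))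
  letI : Algebra (MvPolynomial (J ⊕ Fin D) k) Ω := a.toRingHom.toAlgebra
  have ha : ∀ g, algebraMap (MvPolynomial (J ⊕ Fin D) k) Ω g = a g := fun g => rfl
  have haL : ∀ g, a g = algebraMap L Ω (aeval (Sum.elim y fun l => algebraMap F L (PF l)) g) := by
    intro g
    have : a = ((IsScalarTower.toAlgHom k L Ω).comp (aeval (Sum.elim y fun l => algebraMap F L (PF l)))) := by
      refine MvPolynomial.algHom_ext fun i => ?_
      rcases i with j | l
      · simp [a]
      · simp only [a, aeval_X, Sum.elim_inr, AlgHom.comp_apply, IsScalarTower.coe_toAlgHom']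
        exact IsScalarTower.algebraMap_apply F L Ω (PF l)
    rw [this]; rfl
  obtain ⟨ψ, hψ⟩ := spec_psi (Ω := Ω) (aeval (Sum.elim f p) : MvPolynomial (J ⊕ Fin D) k →ₐ[k] k) (by
    intro r hr
    rw [ha, haL] at hr
    have h1 := (map_eq_zero_iff _ (algebraMap L Ω).injective).1 hr
    have h2 := hrel r h1
    rw [← h2]
    rfl)
  -- the conjugates are integral
  have hint : ∀ (σ : L →ₐ[F] Ω) (j : J), IsIntegral (MvPolynomial (J ⊕ Fin D) k) (σ (y j)) := by
    intro σ j
    obtain ⟨q, hq, hq0⟩ := hy j
    refine ⟨q.map (rename Sum.inr : MvPolynomial (Fin D) k →ₐ[k] MvPolynomial (J ⊕ Fin D) k).toRingHom,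
      hq.map _, ?_⟩
    rw [Polynomial.eval₂_map]
    have hc : (algebraMap (MvPolynomial (J ⊕ Fin D) k) Ω).comp
        (rename Sum.inr : MvPolynomial (Fin D) k →ₐ[k] MvPolynomial (J ⊕ Fin D) k).toRingHom =
        (σ : L →+* Ω).comp ((algebraMap F L).comp (aeval PF : MvPolynomial (Fin D) k →ₐ[k] F).toRingHom) := by
      refine MvPolynomial.ringHom_ext (fun c => ?_) (fun i => ?_)
      · show a (rename Sum.inr (C c)) = σ (algebraMap F L (aeval PF (C c)))
        have e1 : a (C c) = algebraMap k Ω c := a.commutes c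
        have e2 : aeval PF (C c) = algebraMap k F c := aeval_C _ _
        rw [rename_C, e1, e2, σ.commutes, ← IsScalarTower.algebraMap_apply k F Ω]
      · show a (rename Sum.inr (X i)) = σ (algebraMap F L (aeval PF (X i)))
        rw [rename_X, aeval_X, σ.commutes]
        simp [a]
    rw [hc]
    have h5 := Polynomial.hom_eval₂ q
      ((algebraMap F L).comp (aeval PF : MvPolynomial (Fin D) k →ₐ[k] F).toRingHom) (σ : L →+* Ω) (y j)
    rw [hq0, map_zero] at h5
    exact h5.symm
  refine ⟨L →ₐ[F] Ω, inferInstance, fun σ j => ψ ⟨σ (y j), hint σ j⟩, IsScalarTower.toAlgHom F L Ω,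
    AlgHom.card F L Ω, fun j => ?_, fun T lam g hg => ?_⟩
  · have h1 : (⟨(IsScalarTower.toAlgHom F L Ω) (y j), hint _ j⟩ : integralClosure (MvPolynomial (J ⊕ Fin D) k) Ω) =
        algebraMap (MvPolynomial (J ⊕ Fin D) k) (integralClosure (MvPolynomial (J ⊕ Fin D) k) Ω) (X (Sum.inl j)) := by
      apply Subtype.ext
      show algebraMap L Ω (y j) = a (X (Sum.inl j))
      simp [a]
    refine (congrArg ψ h1).trans ((hψ _).trans ?_)
    simp
  · have h1 : algebraMap (MvPolynomial (J ⊕ Fin D) k) (integralClosure (MvPolynomial (J ⊕ Fin D) k) Ω)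
        (rename Sum.inr g) = ∏ σ : L →ₐ[F] Ω,
        (algebraMap (MvPolynomial (J ⊕ Fin D) k) (integralClosure (MvPolynomial (J ⊕ Fin D) k) Ω) (C T) -
          ∑ j, algebraMap (MvPolynomial (J ⊕ Fin D) k) (integralClosure (MvPolynomial (J ⊕ Fin D) k) Ω) (C (lam j)) *
            ⟨σ (y j), hint σ j⟩) := by
      have hinj : Function.Injective (algebraMap (integralClosure (MvPolynomial (J ⊕ Fin D) k) Ω) Ω) :=
        Subtype.val_injective
      apply hinj
      rw [map_prod]
      have hL : algebraMap (integralClosure (MvPolynomial (J ⊕ Fin D) k) Ω) Ω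
          (algebraMap (MvPolynomial (J ⊕ Fin D) k) (integralClosure (MvPolynomial (J ⊕ Fin D) k) Ω)
          (rename Sum.inr g)) = algebraMap F Ω (aeval PF g) := by
        show a (rename Sum.inr g) = _
        rw [haL, aeval_rename, IsScalarTower.algebraMap_apply F L Ω]
        congr 1
        have : ((Sum.elim y fun l => algebraMap F L (PF l)) ∘ Sum.inr : Fin D → L) = fun l => algebraMap F L (PF l) := rfl
        rw [this, ← MvPolynomial.aeval_algebraMap_apply]
        rfl
      rw [hL, hg, Algebra.norm_eq_prod_embeddings F Ω]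
      refine Finset.prod_congr rfl fun σ _ => ?_
      rw [map_sub, map_sub, map_sum, map_sum]
      congr 1
      · show _ = a (C T)
        rw [← MvPolynomial.algebraMap_eq, a.commutes, IsScalarTower.algebraMap_apply k F L, σ.commutes,
          ← IsScalarTower.algebraMap_apply k F Ω]
      · refine Finset.sum_congr rfl fun j _ => ?_
        rw [map_mul]
        show σ (lam j • y j) = a (C (lam j)) * σ (y j)
        rw [← MvPolynomial.algebraMap_eq, a.commutes, Algebra.smul_def, map_mul,
          IsScalarTower.algebraMap_apply k F L, σ.commutes, ← IsScalarTower.algebraMap_apply k F Ω]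
    have h2 := congrArg ψ h1
    rw [hψ, map_prod] at h2
    have h3 : (aeval (Sum.elim f p) : MvPolynomial (J ⊕ Fin D) k →ₐ[k] k) (rename Sum.inr g) = eval p g := by
      rw [aeval_rename]
      rfl
    rw [h3] at h2
    rw [h2]
    refine Finset.prod_congr rfl fun σ _ => ?_
    rw [map_sub, map_sum, hψ]
    congr 1
    · simp
    · refine Finset.sum_congr rfl fun j _ => ?_
      rw [map_mul, hψ]
      simp

theorem spec_s {k : Type} [Field k] {K : Type} [Field K] [Algebra k K] {D : ℕ} {P : Fin D → K} {J : Type}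
    [Fintype J] {y : J → K} (hP : AlgebraicIndependent k P)
    (hy : ∀ j, IsIntegral (Algebra.adjoin k (Set.range P)) (y j)) (hs : ∀ j, IsSeparable (FP k P) (y j))
    (f : J → k) (p : Fin D → k)
    (hrel : ∀ g : MvPolynomial (J ⊕ Fin D) k, aeval (Sum.elim y P) g = 0 → eval (Sum.elim f p) g = 0) :
    ∃ (ι : Type) (_ : Fintype ι) (Y : ι → J → AlgebraicClosure k) (σ0 : ι),
      Fintype.card ι = Module.finrank (FP k P) (LP k P y) ∧
      (∀ j, Y σ0 j = algebraMap k (AlgebraicClosure k) (f j)) ∧
      ∀ (T : k) (lam : J → k) (g : MvPolynomial (Fin D) k), aeval P g = nrm P y T lam →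
        algebraMap k (AlgebraicClosure k) (eval p g) =
          ∏ σ, (algebraMap k (AlgebraicClosure k) T - ∑ j, algebraMap k (AlgebraicClosure k) (lam j) * Y σ j) := by
  have := finite_LP hy
  have hsep : Algebra.IsSeparable (FP k P) (LP k P y) := by
    rw [IntermediateField.isSeparable_adjoin_iff_isSeparable]
    rintro _ ⟨j, rfl⟩
    exact hs j
  have : IsScalarTower k (LP k P y) K := IsScalarTower.of_algebraMap_eq fun x => rfl
  let PF : Fin D → FP k P := fun l => ⟨P l, IntermediateField.subset_adjoin _ _ ⟨l, rfl⟩⟩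
  have hPF : ∀ g : MvPolynomial (Fin D) k, algebraMap (FP k P) K (aeval PF g) = aeval P g := by
    intro g
    rw [← MvPolynomial.aeval_algebraMap_apply]
    rfl
  obtain ⟨ι, hι, Y, σ0, h1, h2, h3⟩ := spec_gen (k := k) (F := FP k P) (L := LP k P y) PF (yL k P y) (by
    intro j
    obtain ⟨q0, hq0, hq1⟩ := hy j
    have hr : (aeval P : MvPolynomial (Fin D) k →ₐ[k] K).range = Algebra.adjoin k (Set.range P) :=
      (Algebra.adjoin_range_eq_range_aeval k P).symm
    let ρ : MvPolynomial (Fin D) k →+* Algebra.adjoin k (Set.range P) :=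
      (aeval P : MvPolynomial (Fin D) k →ₐ[k] K).toRingHom.codRestrict (Algebra.adjoin k (Set.range P)) (by
        intro g; rw [← hr]; exact ⟨g, rfl⟩)
    have hρ : Function.Surjective ρ := by
      rintro ⟨x, hx⟩
      rw [← hr] at hx
      obtain ⟨g, hg⟩ := hx
      exact ⟨g, Subtype.ext hg⟩
    have hl : q0 ∈ Polynomial.lifts ρ := by
      rw [Polynomial.mem_lifts]
      exact Polynomial.map_surjective ρ hρ q0
    obtain ⟨q, hq, _, hqm⟩ := Polynomial.lifts_and_natDegree_eq_and_monic hl hq0
    refine ⟨q, hqm, ?_⟩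
    apply (algebraMap (LP k P y) K).injective
    rw [Polynomial.hom_eval₂, map_zero]
    rw [← hq, Polynomial.eval₂_map] at hq1
    have hc : (algebraMap (LP k P y) K).comp ((algebraMap (FP k P) (LP k P y)).comp
        (aeval PF : MvPolynomial (Fin D) k →ₐ[k] FP k P).toRingHom) =
        (algebraMap (Algebra.adjoin k (Set.range P)) K).comp ρ := by
      ext g
      · show algebraMap (FP k P) K (aeval PF (C g)) = (aeval P (C g) : K)
        exact hPF _
      · show algebraMap (FP k P) K (aeval PF (X g)) = (aeval P (X g) : K)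
        exact hPF _
    rw [hc]
    exact hq1) f p (by
    intro g hg
    refine hrel g ?_
    have h1 : aeval (Sum.elim y P) g = algebraMap (LP k P y) K
        (aeval (Sum.elim (yL k P y) fun l => algebraMap (FP k P) (LP k P y) (PF l)) g) := by
      rw [← MvPolynomial.aeval_algebraMap_apply]
      congr 1
      congr 1
      funext i
      rcases i with j | l <;> rfl
    rw [h1, hg, map_zero])
  refine ⟨ι, hι, Y, σ0, h1, h2, fun T lam g hg => h3 T lam g ?_⟩
  apply (algebraMap (FP k P) K).injective
  rw [hPF, hg]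
  rfl

end Pool.Agent.VPP
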