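import Pool.Agent.VPE.NN
import Pool.Agent.VPE.Count
import Pool.Agent.VPP.ScaleW
import Pool.Agent.VPP.SpecS
import Pool.Agent.VPP.Insep

/-!
# [VPP-CAYLEY] the norm form in characteristic `r`

As `cayley` in `VPE/Cayley.lean`, for the norm of `T - ∑ j, lam j * (t z_j) ^ q`, where `q = r ^ n` is the power of
the characteristic given by `insep`: the elements `(t z_j) ^ q` are separable over `k(P)` and `q` times the degree
of the extension which they generate is the degree of a single combination of the `t z_j`, which is bounded by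
`count`.
-/

set_option autoImplicit false

open MvPolynomial

namespace Pool.Agent.VPP

open Pool.Agent.VPE

open scoped IntermediateField.algebraAdjoinAdjoin in
private theorem isIntegral_FP {k : Type} [Field k] {K : Type} [Field K] [Algebra k K] {D : ℕ} {P : Fin D → K} {y : K}
    (hy : IsIntegral (Algebra.adjoin k (Set.range P)) y) : IsIntegral (FP k P) y :=
  hy.tower_top

theorem cayley_p {r : ℕ} [Fact r.Prime] {k : Type} [Field k] [CharP k r] [Infinite k] [PerfectRing k r]
    {S : Type} [Fintype S] {J : Type} [Fintype J] {E : ℕ} (z : J → MvPolynomial S k)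
    (hE : ∀ j, (z j).totalDegree ≤ E) (j0 : J) (hj0 : z j0 = 1) :
    ∃ (D Δ n : ℕ) (π : Fin D → J → k) (G : MvPolynomial (Option J ⊕ Fin D) k), D ≤ Fintype.card S + 1 ∧
      Δ ≤ Tb E D ∧ G.totalDegree ≤ 2 * Tb E D ∧
      ∀ f : J → k, (∀ g : MvPolynomial J k, aeval (fun j => tz (z j)) g = 0 → eval f g = 0) →
        ∃ (ι : Type) (_ : Fintype ι) (Y : ι → J → AlgebraicClosure k) (σ0 : ι), Fintype.card ι = Δ ∧
          (∀ j, Y σ0 j = algebraMap k (AlgebraicClosure k) (f j ^ r ^ n)) ∧
          ∀ (T : k) (lam : J → k), algebraMap k (AlgebraicClosure k)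
            (eval (Sum.elim (fun o => o.elim T lam) (fun l => ∑ j, π l j * f j)) G) =
            ∏ σ, (algebraMap k (AlgebraicClosure k) T - ∑ j, algebraMap k (AlgebraicClosure k) (lam j) * Y σ j) := by
  classical
  obtain ⟨D, π, hP, hy⟩ := nn z
  set p : Fin D → MvPolynomial S k := fun l => ∑ j, π l j • z j with hpdef
  have hp : ∀ l, (p l).totalDegree ≤ E := fun l =>
    totalDegree_finsetSum_le fun j _ => (totalDegree_smul_le _ _).trans (hE j)
  obtain ⟨n, lam, hsep, hdeg⟩ := insep (r := r) (k := k) (F := FP k fun l => tk (p l)) (L := KK k S)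
    (fun j => tk (z j)) (fun j => isIntegral_FP (hy j))
  set q : ℕ := r ^ n with hq
  have hq1 : 1 ≤ q := Nat.one_le_pow _ _ (Fact.out : r.Prime).pos
  have hyq : ∀ j, IsIntegral (Algebra.adjoin k (Set.range fun l => tk (p l))) (tk (z j) ^ q) := fun j => (hy j).pow q
  obtain ⟨G0, hG0, hn⟩ := norm_poly (P := fun l => tk (p l)) (y := fun j => tk (z j) ^ q) hP hyq
  set Δ := Module.finrank (FP k fun l => tk (p l)) (LP k (fun l => tk (p l)) fun j => tk (z j) ^ q) with hΔ
  have hqΔ : q * Δ ≤ Tb E D := by
    rw [hΔ, ← hdeg]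
    have hmap : (∑ j, lam j • tk (z j)) = tk (∑ j, lam j • z j) := by
      rw [tk_sum]
      exact Finset.sum_congr rfl fun j _ => (tk_smul _ _).symm
    rw [hmap]
    refine count p _ hp ?_ hP (by rw [← hj0]; exact hy j0) ?_
    · exact totalDegree_finsetSum_le fun j _ => (totalDegree_smul_le _ _).trans (hE j)
    · rw [tk_sum]
      refine IsIntegral.sum _ fun j _ => ?_
      rw [tk_smul]
      exact (hy j).smul _
  have hΔT : Δ ≤ Tb E D := le_trans (Nat.le_mul_of_pos_left Δ hq1) hqΔ
  have hcoef := deg_bound_w p hP z q Δ G0 hG0 hn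
  let G : MvPolynomial (Option J ⊕ Fin D) k := ∑ m ∈ G0.support,
    rename Sum.inr (coeff m G0) * ∏ o, (X (Sum.inl o)) ^ m o
  have hGdeg : G.totalDegree ≤ 2 * Tb E D := by
    refine totalDegree_finsetSum_le fun m hm => ?_
    refine (totalDegree_mul _ _).trans ?_
    have h1 : (rename (Sum.inr : Fin D → Option J ⊕ Fin D) (coeff m G0)).totalDegree ≤ Tb E D :=
      (totalDegree_rename_le _ _).trans ((hcoef m).trans hqΔ)
    have h2 : (∏ o : Option J, (X (Sum.inl o) : MvPolynomial (Option J ⊕ Fin D) k) ^ m o).totalDegree ≤ Tb E D := by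
      refine le_trans ?_ hΔT
      refine (totalDegree_finsetProd _ _).trans ?_
      refine le_trans (Finset.sum_le_sum fun o _ => ?_) (le_trans (b := ∑ o, m o) le_rfl ?_)
      · refine (totalDegree_pow _ _).trans ?_
        rw [totalDegree_X, mul_one]
      · have h3 : (m.sum fun _ e => e) ≤ G0.totalDegree := le_totalDegree hm
        rw [Finsupp.sum_fintype _ _ (fun _ => rfl)] at h3
        exact h3.trans hG0
    omega
  have hGe : ∀ (a : Option J → k) (b : Fin D → k), eval (Sum.elim a b) G = eval b (eval (fun o => C (a o)) G0) := by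
    intro a b
    rw [eval_eq' (fun o => C (a o)) G0]
    show eval (Sum.elim a b) (∑ m ∈ G0.support, rename Sum.inr (coeff m G0) * ∏ o, (X (Sum.inl o)) ^ m o) = _
    rw [map_sum, map_sum]
    refine Finset.sum_congr rfl fun m _ => ?_
    rw [map_mul, map_mul, eval_rename, map_prod, map_prod]
    congr 1
    · refine Finset.prod_congr rfl fun o _ => ?_
      simp
  refine ⟨D, Δ, n, π, G, dim_le hP, hΔT, hGdeg, ?_⟩
  intro f hf
  have hrel : ∀ g : MvPolynomial (J ⊕ Fin D) k,
      aeval (Sum.elim (fun j => tk (z j) ^ q) (fun l => tk (p l))) g = 0 →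
        eval (Sum.elim (fun j => f j ^ q) (fun l => ∑ j, π l j * f j)) g = 0 := by
    intro g hg
    set g' : MvPolynomial J k := aeval (Sum.elim (fun j => X j ^ q) (fun l => ∑ j, C (π l j) * X j)) g with hg'
    have e1 : aeval (fun j => tz (z j)) g' = 0 := by
      have hinj : Function.Injective (algebraMap (MvPolynomial (Option S) k) (KK k S)) :=
        IsFractionRing.injective _ _
      apply hinj
      rw [map_zero, ← hg, hg']
      show ((IsScalarTower.toAlgHom k (MvPolynomial (Option S) k) (KK k S)).comp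
        ((aeval (fun j => tz (z j))).comp (aeval (Sum.elim (fun j => X j ^ q)
          (fun l => ∑ j, C (π l j) * X j))))) g = _
      congr 1
      refine MvPolynomial.algHom_ext fun i => ?_
      rw [AlgHom.comp_apply, AlgHom.comp_apply, aeval_X, aeval_X]
      cases i with
      | inl j =>
        show algebraMap (MvPolynomial (Option S) k) (KK k S) (aeval (fun j => tz (z j)) (X j ^ q)) = tk (z j) ^ q
        rw [map_pow, aeval_X, map_pow]
        rfl
      | inr l =>
        show algebraMap (MvPolynomial (Option S) k) (KK k S)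
          (aeval (fun j => tz (z j)) (∑ j, C (π l j) * X j)) = tk (∑ j, π l j • z j)
        unfold tk
        congr 1
        rw [map_sum, tz_sum]
        refine Finset.sum_congr rfl fun j _ => ?_
        rw [map_mul, aeval_X, aeval_C, tz_smul, Algebra.smul_def]
    have e2 := hf g' e1
    rw [hg'] at e2
    rw [← e2, ← MvPolynomial.coe_aeval_eq_eval, ← MvPolynomial.coe_aeval_eq_eval]
    show (aeval (Sum.elim (fun j => f j ^ q) (fun l => ∑ j, π l j * f j)) : MvPolynomial (J ⊕ Fin D) k →ₐ[k] k) g =
      ((aeval f : MvPolynomial J k →ₐ[k] k).comp (aeval (Sum.elim (fun j => X j ^ q)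
          (fun l => ∑ j, C (π l j) * X j)))) g
    congr 1
    refine MvPolynomial.algHom_ext fun i => ?_
    rw [AlgHom.comp_apply, aeval_X, aeval_X]
    cases i with
    | inl j =>
      show f j ^ q = aeval f (X j ^ q)
      rw [map_pow, aeval_X]
    | inr l =>
      show ∑ j, π l j * f j = aeval f (∑ j, C (π l j) * X j)
      rw [map_sum]
      refine Finset.sum_congr rfl fun j _ => ?_
      rw [map_mul, aeval_X, aeval_C]
      rfl
  obtain ⟨ι, hι, Y, σ0, hcard, hY, hfin⟩ := spec_s (y := fun j => tk (z j) ^ q) hP hyq hsep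
    (fun j => f j ^ q) (fun l => ∑ j, π l j * f j) hrel
  refine ⟨ι, hι, Y, σ0, hcard, hY, fun T lam => ?_⟩
  rw [hGe]
  exact hfin T lam _ (hn T lam)

end Pool.Agent.VPP
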